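import Pool.Agent.Lib.MP_2619d0_ag.Q3.NoDvd
import Pool.Agent.Lib.MP_2619d0_ag.CUB.RankI
import Pool.Agent.Lib.MP_2619d0_ag.T.SG8
import Pool.Agent.Lib.MP_2619d0_ag.R.TF8
import Pool.Agent.Lib.MP_2619d0_ag.QTop

/-!
Conics in the very general cubic hypersurface through an odd generic point and a small point.
-/

set_option autoImplicit false

namespace MP2619.Q3

universe u

open MvPolynomial Pool.Agent.Lib.MP_2619d0_ag Pool.Agent.Lib.MP_2619d0_ag.T MP2619.T MP2619.R
  MP2619.CUB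

theorem trdeg_ge {m : ℕ} {L : Type u} [Field L] [Algebra ℂ L] {F : MvPolynomial (Fin (m+1+1)) ℂ}
    (hF : VG F) (x : Fin (m+1+1) → L) (hx : HG F x) :
    (m : Cardinal.{u}) ≤ Algebra.trdeg ℂ (ratioF x) := by
  have h1 := ratios_indep hF x hx
  have h2 : ∀ l : Fin m, x l.succ.succ / x 0 ∈ ratioF x := fun l =>
    IntermediateField.subset_adjoin _ _ ⟨_, _, rfl⟩
  have h3 : AlgebraicIndependent ℂ (fun l : Fin m => (⟨x l.succ.succ / x 0, h2 l⟩ : ratioF x)) := by
    have h4 : AlgebraicIndependent ℂ ((ratioF x).val ∘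
        fun l : Fin m => (⟨x l.succ.succ / x 0, h2 l⟩ : ratioF x)) := h1
    exact AlgebraicIndependent.of_comp _ h4
  have h5 := h3.lift_cardinalMk_le_trdeg
  simpa using h5

theorem conic_odd {m D : ℕ} (hm : 1 ≤ m) {F : MvPolynomial (Fin (m+1+1)) ℂ} (hF : VG F)
    (hS : S.{0, u} (m + 1 + 1) D) (hD1 : D + 1 ≤ m) (k0 : Subfield ℂ) (hk0 : Countable k0)
    (hind : AlgebraicIndependent k0 (fun j : Exp3 (m + 1 + 1) => coeff j.1 F)) {d : ℕ}
    {G : MvPolynomial (Fin (m + 1 + 1)) ℂ} (hG : G.IsHomogeneous d) (hG0 : G ≠ 0)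
    (hGk : ∀ e, coeff e G ∈ k0) {L : Type u} [Field L] [Algebra ℂ L]
    (w q x : Fin (m+1+1) → L) (hx : HG F x)
    (hid : ∀ s : L, Fc (cL L F) (s ^ 2 • w + s • q + x) = 0)
    (hnc : ∃ s : L, ∀ c : L, s ^ 2 • w + s • q + x ≠ c • x)
    (hw : aeval w G = 0 ∨ Algebra.trdeg ℂ (ratioF w) ≤ (D : Cardinal.{u})) :
    ¬ Odd (Module.finrank (ratioField x) L) := by
  classical
  intro hodd
  have hinf : Infinite L := Infinite.of_injective _ (algebraMap ℂ L).injective
  have hx0 : x 0 ≠ 0 := HG_zero hF hx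
  obtain ⟨e6, e5, e4, e3, e2, e1, e0⟩ := st_conic_coeffs (cL L F) w q x hid
  by_cases hw0 : w = 0
  · -- a line
    obtain ⟨s, hs⟩ := hnc
    have h1 : Dc (cL L F) x w = 0 := by
      rw [hw0]
      have h3 := Dc_smul_right (cL L F) 0 x (0 : Fin (m+1+1) → L)
      rwa [zero_smul, zero_mul] at h3
    rw [h1, add_zero] at e2
    obtain ⟨a, ha⟩ := star_ev (N := m+1) (by omega) hF x hx0 (Gp_ev (N := m+1) hF.1 x hx0 hx)
      (by rw [fd_ev (N := m+1) x hx0]; exact hodd) q e1 e2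
    refine hs (s * a + 1) ?_
    rw [hw0, ha]
    funext j
    simp only [Pi.add_apply, Pi.smul_apply, smul_eq_mul, Pi.zero_apply]
    ring
  by_cases hwx : ∃ c : L, w = c • x
  · obtain ⟨c, hc⟩ := hwx
    have hc0 : c ≠ 0 := by
      rintro rfl
      apply hw0
      rw [hc, zero_smul]
    rcases hw with h | h
    · have h1 : aeval (c • x) G = c ^ d * aeval x G := aeval_smul_homog hG c x
      rw [← hc, h] at h1
      have h2 : aeval x G = 0 := (mul_eq_zero.1 h1.symm).resolve_left (pow_ne_zero _ hc0)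
      exact not_dvd hF.1 k0 hind hG0 hGk ((hx d G hG).1 h2)
    · rw [hc, ratioF_smul (N := m+1) c hc0 x] at h
      have h1 := (trdeg_ge hF x hx).trans h
      have h2 : m ≤ D := by exact_mod_cast h1
      omega
  push Not at hwx
  have hFw : aeval w F = 0 := by
    rw [aeval_eq_Fc hF.1]
    exact e6
  obtain ⟨h1, h2⟩ := third_homG (N := m+1) (by omega) hF k0 hk0 hind hG hG0 hGk x hx hodd w hFw hwx
  obtain ⟨h3, h4, h5⟩ := third_convert (by omega) hF w x h1 (by
    rcases hw with h | h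
    · exact h2 (Or.inl h)
    · exact third_small (N := m+1) (D := D) (by omega) hF hS (by omega) x hx hodd w hFw hwx h)
  exact conic_third hm hF w q x hx h3 hid h4 h5

end MP2619.Q3
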