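import Pool.Agent.Lib.MP_2619d0_ag.Q3.Spec

/-!
Families of quadratically parametrised varieties and of plane rational curves: final form.
-/

set_option autoImplicit false

namespace MP2619.Q3

universe u

open MvPolynomial Pool.Agent.Lib.MP_2619d0_ag Pool.Agent.Lib.MP_2619d0_ag.T MP2619.T MP2619.R
  MP2619.CUB

section poly

variable {E : Type*} [Field E]

/-- the exponents of a binary cubic form -/
noncomputable def mexp (i : Fin 4) : Fin 2 →₀ ℕ :=
  Finsupp.single 0 (3 - i.1) + Finsupp.single 1 i.1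

theorem mexp_inj {i j : Fin 4} (h : mexp i = mexp j) : i = j := by
  have h1 := DFunLike.congr_fun h 1
  unfold mexp at h1
  simp only [Finsupp.add_apply, Finsupp.single_apply] at h1
  simp at h1
  exact Fin.ext h1

theorem bf_mon (v : Fin 4 → E) : bf v = ∑ i, monomial (mexp i) (v i) := by
  have hx : ∀ a b : ℕ, (X 0 ^ a * X 1 ^ b : MvPolynomial (Fin 2) E) =
      monomial (Finsupp.single 0 a + Finsupp.single 1 b) 1 := by
    intro a b
    rw [X_pow_eq_monomial, X_pow_eq_monomial, monomial_mul, one_mul]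
  rw [Fin.sum_univ_four]
  unfold bf
  have h0 := hx 3 0
  have h1 := hx 2 1
  have h2 := hx 1 2
  have h3 := hx 0 3
  rw [pow_zero, mul_one] at h0
  rw [pow_one] at h1
  rw [pow_one] at h2
  rw [pow_zero, one_mul] at h3
  rw [h0, h1, h2, h3]
  simp only [C_mul_monomial, mul_one]
  rfl

theorem coeff_bf (v : Fin 4 → E) (i : Fin 4) : coeff (mexp i) (bf v) = v i := by
  classical
  rw [bf_mon, coeff_sum]
  simp only [coeff_monomial]
  rw [Finset.sum_eq_single i]
  · rw [if_pos rfl]
  · intro j _ hj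
    rw [if_neg]
    intro h
    exact hj (mexp_inj h)
  · intro h
    exact absurd (Finset.mem_univ i) h

theorem eq_bf {φ : MvPolynomial (Fin 2) E} (hφ : φ.IsHomogeneous 3) :
    φ = bf (fun i => coeff (mexp i) φ) := by
  classical
  refine MvPolynomial.ext _ _ fun d => ?_
  by_cases hd : d.degree = 3
  · have h1 : d 0 + d 1 = 3 := by
      rw [Finsupp.degree_eq_sum, Fin.sum_univ_two] at hd
      exact hd
    have h2 : d 1 < 4 := by omega
    have h3 : d = mexp ⟨d 1, h2⟩ := by
      ext i
      unfold mexp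
      fin_cases i
      · simp
        omega
      · simp
    rw [h3, coeff_bf, ← h3]
  · rw [hφ.coeff_eq_zero hd, (bf_hom _).coeff_eq_zero hd]

/-- A family of binary cubic forms which span a space of dimension at most three. -/
theorem exists_lam {n : ℕ} (φ : Fin n → MvPolynomial (Fin 2) E) (hφ : ∀ j, (φ j).IsHomogeneous 3)
    (hs : Module.finrank E (Submodule.span E (Set.range φ)) ≤ 3) :
    ∃ lam : Fin 4 → E, lam ≠ 0 ∧ ∀ j, ∑ i, lam i * coeff (mexp i) (φ j) = 0 := by
  classical
  let cf : MvPolynomial (Fin 2) E →ₗ[E] (Fin 4 → E) :=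
    LinearMap.pi fun i => MvPolynomial.lcoeff E (mexp i)
  have hcf : ∀ ψ i, cf ψ i = coeff (mexp i) ψ := fun ψ i => rfl
  have hfd : Module.Finite E (Submodule.span E (Set.range φ)) :=
    FiniteDimensional.span_of_finite E (Set.finite_range φ)
  have h1 : Module.finrank E ((Submodule.span E (Set.range φ)).map cf) ≤ 3 :=
    (Submodule.finrank_map_le cf _).trans hs
  have h2 : (Submodule.span E (Set.range φ)).map cf < ⊤ := by
    rw [lt_top_iff_ne_top]
    intro h
    rw [h, finrank_top, Module.finrank_fin_fun] at h1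
    omega
  obtain ⟨f, hf0, hf⟩ := Submodule.exists_le_ker_of_lt_top _ h2
  have hfe : ∀ w : Fin 4 → E, f w = ∑ i, f (Pi.single i 1) * w i := by
    intro w
    conv_lhs => rw [← Finset.univ_sum_single w]
    rw [map_sum]
    refine Finset.sum_congr rfl fun i _ => ?_
    have h3 : (Pi.single i (w i) : Fin 4 → E) = w i • Pi.single i 1 := by
      rw [← Pi.single_smul, smul_eq_mul, mul_one]
    rw [h3, map_smul, smul_eq_mul, mul_comm]
  refine ⟨fun i => f (Pi.single i 1), ?_, ?_⟩
  · intro h
    apply hf0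
    apply LinearMap.ext
    intro w
    rw [hfe w, LinearMap.zero_apply]
    refine Finset.sum_eq_zero fun i _ => ?_
    have h3 := congrFun h i
    change f (Pi.single i 1) = 0 at h3
    rw [h3, zero_mul]
  · intro j
    have h3 : cf (φ j) ∈ LinearMap.ker f :=
      hf (Submodule.mem_map_of_mem (Submodule.subset_span ⟨j, rfl⟩))
    have h4 := LinearMap.mem_ker.1 h3
    rw [hfe] at h4
    exact h4

end poly

theorem nat_of_lt {m : ℕ} {c : Cardinal.{u}} (h : c < (m : Cardinal.{u})) :
    ∃ D : ℕ, c ≤ D ∧ D + 1 ≤ m := by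
  obtain ⟨D, rfl⟩ := Cardinal.lt_aleph0.1 (h.trans (Cardinal.natCast_lt_aleph0 (n := m)))
  refine ⟨D, le_rfl, ?_⟩
  have h1 : D < m := by exact_mod_cast h
  omega

/-- Families of quadratically parametrised varieties and of plane rational curves. -/
theorem final {m N r e : ℕ} (hm : 1 ≤ m) {F : MvPolynomial (Fin (m+1+1)) ℂ} (hF : VG F)
    (hT : ThirdOdd.{u} F) {E L : Type u} [Field E] [Field L] [Algebra ℂ E]
    [Algebra ℂ L] [Algebra E L] [IsScalarTower ℂ E L]
    (φ : Fin (m+1+1) → MvPolynomial (Fin N) E) (hφ : ∀ j, (φ j).IsHomogeneous e)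
    (h0 : aeval φ F = 0) (he : e ≤ 2 ∨ (e = 3 ∧ N = 2 ∧
      Module.finrank E (Submodule.span E (Set.range φ)) ≤ 3)) (p : Fin N → L)
    (x : Fin (m+1+1) → L) (hxd : x = fun j => aeval p (φ j)) (hx : HG F x)
    (hE : Algebra.trdeg ℂ E < (m : Cardinal.{u})) (v : Fin r → L)
    (hv : AlgebraicIndependent (ratioField x) v) :
    ¬ Odd (Module.finrank (IntermediateField.adjoin (ratioField x) (Set.range v)) L) := by
  obtain ⟨D, hD, hD1⟩ := nat_of_lt hE
  rcases he with he | ⟨rfl, rfl, hs⟩
  · exact low_N hm hF hT hD1 he φ hφ h0 p x hxd hx hD v hv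
  · obtain ⟨lam, hlam, hl⟩ := exists_lam φ hφ hs
    have h1 : (fun j => bf (fun i => coeff (mexp i) (φ j))) = φ := funext fun j => (eq_bf (hφ j)).symm
    refine plane_fam hm hF hT hD1 (fun j i => coeff (mexp i) (φ j)) lam hlam hl ?_ p x ?_ hx hD v hv
    · rw [h1]
      exact h0
    · rw [hxd]
      funext j
      rw [← eq_bf (hφ j)]

end MP2619.Q3
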