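import Pool.Agent.Lib.MP_2619d0_ag.CUB.Any
import Pool.Agent.Lib.MP_2619d0_ag.T.SH2

/-!
Families of plane rational cubic curves.
-/

set_option autoImplicit false

namespace MP2619.Q3

universe u

open MvPolynomial Pool.Agent.Lib.MP_2619d0_ag Pool.Agent.Lib.MP_2619d0_ag.T MP2619.T MP2619.R
  MP2619.CUB

section linalg

variable {E : Type*} [Field E]

theorem pl_span (lam A B G : Fin 4 → E) (hlam : lam ≠ 0) (hA : ∑ i, lam i * A i = 0)
    (hB : ∑ i, lam i * B i = 0) (hG : ∑ i, lam i * G i = 0)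
    (hind : LinearIndependent E ![G, A, B]) (v : Fin 4 → E) (hv : ∑ i, lam i * v i = 0) :
    ∃ r s t : E, v = r • A + s • B + t • G := by
  classical
  let f : (Fin 4 → E) →ₗ[E] E := Fintype.linearCombination E lam
  have hf : ∀ w, f w = ∑ i, lam i * w i := by
    intro w
    change (Fintype.linearCombination E lam) w = _
    rw [Fintype.linearCombination_apply]
    exact Finset.sum_congr rfl fun i _ => by rw [smul_eq_mul, mul_comm]
  have hf0 : f ≠ 0 := by
    intro h
    apply hlam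
    funext i
    have h1 := hf (Pi.single i 1)
    rw [h] at h1
    simp only [LinearMap.zero_apply, Pi.single_apply, mul_ite, mul_one, mul_zero,
      Finset.sum_ite_eq', Finset.mem_univ, if_true] at h1
    exact h1.symm
  have hr : Module.finrank E (LinearMap.ker f) = 3 := by
    have h1 := LinearMap.finrank_range_add_finrank_ker f
    have h2 : LinearMap.range f = ⊤ := by
      apply LinearMap.range_eq_top.2
      exact LinearMap.surjective hf0
    rw [h2, finrank_top, Module.finrank_self, Module.finrank_fin_fun] at h1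
    omega
  let W := LinearMap.ker f
  let g : Fin 3 → W := ![⟨G, (hf G).trans hG⟩, ⟨A, (hf A).trans hA⟩, ⟨B, (hf B).trans hB⟩]
  have hg : LinearIndependent E g := by
    have h1 : LinearIndependent E (W.subtype ∘ g) := by
      have h2 : W.subtype ∘ g = ![G, A, B] := by
        funext i
        fin_cases i <;> rfl
      rw [h2]
      exact hind
    exact LinearIndependent.of_comp _ h1
  have hspan := hg.span_eq_top_of_card_eq_finrank (by rw [Fintype.card_fin, hr])
  have hvm : (⟨v, (hf v).trans hv⟩ : W) ∈ Submodule.span E (Set.range g) := by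
    rw [hspan]
    trivial
  rw [Submodule.mem_span_range_iff_exists_fun] at hvm
  obtain ⟨c, hc⟩ := hvm
  refine ⟨c 1, c 2, c 0, ?_⟩
  have h1 := congrArg Subtype.val hc
  rw [Fin.sum_univ_three] at h1
  have h2 : c 0 • G + c 1 • A + c 2 • B = v := h1
  rw [← h2]
  abel

theorem pl_quad (lam : Fin 4 → E) : ∃ q : Fin 3 → E, q ≠ 0 ∧
    lam 0 * q 0 + lam 1 * q 1 + lam 2 * q 2 = 0 ∧ lam 1 * q 0 + lam 2 * q 1 + lam 3 * q 2 = 0 := by
  classical
  let f : (Fin 3 → E) →ₗ[E] (Fin 2 → E) :=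
    (Matrix.of ![![lam 0, lam 1, lam 2], ![lam 1, lam 2, lam 3]]).mulVecLin
  have h1 : LinearMap.ker f ≠ ⊥ := by
    apply LinearMap.ker_ne_bot_of_finrank_lt
    rw [Module.finrank_fin_fun, Module.finrank_fin_fun]
    norm_num
  obtain ⟨q, hq, hq0⟩ := Submodule.exists_mem_ne_zero_of_ne_bot h1
  refine ⟨q, hq0, ?_, ?_⟩
  · have h2 := congrFun (LinearMap.mem_ker.1 hq) 0
    simpa [f, Matrix.mulVec, dotProduct, Fin.sum_univ_three] using h2
  · have h2 := congrFun (LinearMap.mem_ker.1 hq) 1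
    simpa [f, Matrix.mulVec, dotProduct, Fin.sum_univ_three] using h2

end linalg

section poly

variable {E : Type*} [Field E]

/-- the binary cubic form with coefficients `v` -/
noncomputable def bf (v : Fin 4 → E) : MvPolynomial (Fin 2) E :=
  C (v 0) * X 0 ^ 3 + C (v 1) * (X 0 ^ 2 * X 1) + C (v 2) * (X 0 * X 1 ^ 2) + C (v 3) * X 1 ^ 3

/-- the binary quadratic form with coefficients `q` -/
noncomputable def qf (q : Fin 3 → E) : MvPolynomial (Fin 2) E :=
  C (q 0) * X 0 ^ 2 + C (q 1) * (X 0 * X 1) + C (q 2) * X 1 ^ 2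

theorem bf_hom (v : Fin 4 → E) : (bf v).IsHomogeneous 3 := by
  have h0 := isHomogeneous_X E (0 : Fin 2)
  have h1 := isHomogeneous_X E (1 : Fin 2)
  refine IsHomogeneous.add (IsHomogeneous.add (IsHomogeneous.add ?_ ?_) ?_) ?_
  · exact (isHomogeneous_C (Fin 2) (v 0)).mul (h0.pow 3)
  · exact (isHomogeneous_C (Fin 2) (v 1)).mul ((h0.pow 2).mul h1)
  · exact (isHomogeneous_C (Fin 2) (v 2)).mul (h0.mul (h1.pow 2))
  · exact (isHomogeneous_C (Fin 2) (v 3)).mul (h1.pow 3)

theorem qf_hom (q : Fin 3 → E) : (qf q).IsHomogeneous 2 := by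
  have h0 := isHomogeneous_X E (0 : Fin 2)
  have h1 := isHomogeneous_X E (1 : Fin 2)
  refine IsHomogeneous.add (IsHomogeneous.add ?_ ?_) ?_
  · exact (isHomogeneous_C (Fin 2) (q 0)).mul (h0.pow 2)
  · exact (isHomogeneous_C (Fin 2) (q 1)).mul (h0.mul h1)
  · exact (isHomogeneous_C (Fin 2) (q 2)).mul (h1.pow 2)

theorem bf_A (q : Fin 3 → E) : bf ![q 0, q 1, q 2, 0] = qf q * X 0 := by
  unfold bf qf
  simp only [Matrix.cons_val_zero, Matrix.cons_val_one, Matrix.cons_val, C_0]
  ring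

theorem bf_B (q : Fin 3 → E) : bf ![0, q 0, q 1, q 2] = qf q * X 1 := by
  unfold bf qf
  simp only [Matrix.cons_val_zero, Matrix.cons_val_one, Matrix.cons_val, C_0]
  ring

theorem bf_add (v w : Fin 4 → E) : bf (v + w) = bf v + bf w := by
  unfold bf
  simp only [Pi.add_apply, C_add]
  ring

theorem bf_smul (r : E) (v : Fin 4 → E) : bf (r • v) = C r * bf v := by
  unfold bf
  simp only [Pi.smul_apply, smul_eq_mul, C_mul]
  ring

theorem qf_ne (q : Fin 3 → E) (hq : q ≠ 0) : qf q ≠ 0 := by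
  intro h
  apply hq
  have hc : ∀ i j : ℕ, i + j = 2 → coeff (Finsupp.single 0 i + Finsupp.single 1 j) (qf q) = 0 := by
    intro i j _
    rw [h, coeff_zero]
  classical
  have e0 : ∀ s t : E, q 0 * s ^ 2 + q 1 * (s * t) + q 2 * t ^ 2 =
      eval ![s, t] (qf q) := by
    intro s t
    unfold qf
    simp
  have hcoef : ∀ (a : Fin 2 →₀ ℕ), coeff a (qf q) = 0 := fun a => by rw [h, coeff_zero]
  have m0 : (X 0 ^ 2 : MvPolynomial (Fin 2) E) = monomial (Finsupp.single 0 2) 1 := by
    rw [X_pow_eq_monomial]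
  have m1 : (X 0 * X 1 : MvPolynomial (Fin 2) E) =
      monomial (Finsupp.single 0 1 + Finsupp.single 1 1) 1 := by
    unfold X
    rw [monomial_mul, one_mul]
  have m2 : (X 1 ^ 2 : MvPolynomial (Fin 2) E) = monomial (Finsupp.single 1 2) 1 := by
    rw [X_pow_eq_monomial]
  have hne1 : (Finsupp.single 0 1 + Finsupp.single 1 1 : Fin 2 →₀ ℕ) ≠ Finsupp.single 0 2 := by
    intro h
    have := DFunLike.congr_fun h 0
    simp at this
  have hne2 : (Finsupp.single 1 2 : Fin 2 →₀ ℕ) ≠ Finsupp.single 0 2 := by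
    intro h
    have := DFunLike.congr_fun h 0
    simp at this
  have hne3 : (Finsupp.single 1 2 : Fin 2 →₀ ℕ) ≠ Finsupp.single 0 1 + Finsupp.single 1 1 := by
    intro h
    have := DFunLike.congr_fun h 0
    simp at this
  have key : ∀ a : Fin 2 →₀ ℕ, coeff a (qf q) =
      (if Finsupp.single 0 2 = a then q 0 else 0) +
      (if Finsupp.single 0 1 + Finsupp.single 1 1 = a then q 1 else 0) +
      (if Finsupp.single 1 2 = a then q 2 else 0) := by
    intro a
    unfold qf
    rw [m0, m1, m2]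
    simp only [C_mul_monomial, mul_one, coeff_add, coeff_monomial]
  have k0 := key (Finsupp.single 0 2)
  have k1 := key (Finsupp.single 0 1 + Finsupp.single 1 1)
  have k2 := key (Finsupp.single 1 2)
  rw [hcoef, if_pos rfl, if_neg hne1, if_neg hne2, add_zero, add_zero] at k0
  rw [hcoef, if_neg hne1.symm, if_pos rfl, if_neg hne3, add_zero, zero_add] at k1
  rw [hcoef, if_neg hne2.symm, if_neg hne3.symm, if_pos rfl, zero_add, zero_add] at k2
  funext i
  fin_cases i
  · exact k0.symm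
  · exact k1.symm
  · exact k2.symm

/-- a homogeneous polynomial of degree two does not divide a nonzero polynomial of degree `≤ 1` -/
theorem not_dvd_low {q h : MvPolynomial (Fin 2) E} (hq : q.IsHomogeneous 2) (hq0 : q ≠ 0)
    (hd : h.totalDegree ≤ 1) (hqh : q ∣ h) : h = 0 := by
  by_contra h0
  obtain ⟨g, hg⟩ := hqh
  have hg0 : g ≠ 0 := by
    rintro rfl
    exact h0 (by rw [hg, mul_zero])
  have h1 : h.totalDegree = q.totalDegree + g.totalDegree := by
    rw [hg]
    exact totalDegree_mul_of_isDomain hq0 hg0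
  rw [hq.totalDegree hq0] at h1
  omega

theorem plane_sing [Algebra ℂ E] {n : ℕ} {F : MvPolynomial (Fin n) ℂ} (hF : F.IsHomogeneous 3)
    (α β γ : Fin n → E) (q g : MvPolynomial (Fin 2) E) (hq : q.IsHomogeneous 2) (hq0 : q ≠ 0)
    (hg : IsRelPrime q g)
    (h : aeval (fun j => q * (C (α j) * X 0 + C (β j) * X 1) + C (γ j) * g) F = 0) :
    Fc (cm (algebraMap ℂ E) (cub F)) γ = 0 ∧ Dc (cm (algebraMap ℂ E) (cub F)) γ α = 0 ∧
      Dc (cm (algebraMap ℂ E) (cub F)) γ β = 0 := by
  classical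
  obtain ⟨P, hP⟩ : ∃ P, P = cm (algebraMap ℂ (MvPolynomial (Fin 2) E)) (cub F) := ⟨_, rfl⟩
  have hPc : P = cm (C : E →+* MvPolynomial (Fin 2) E) (cm (algebraMap ℂ E) (cub F)) := by
    rw [hP]
    rfl
  obtain ⟨l, hl⟩ : ∃ l : Fin n → MvPolynomial (Fin 2) E,
    l = fun j => C (α j) * X 0 + C (β j) * X 1 := ⟨_, rfl⟩
  obtain ⟨γ', hγ⟩ : ∃ γ' : Fin n → MvPolynomial (Fin 2) E, γ' = fun j => C (γ j) := ⟨_, rfl⟩
  have h1 : (fun j => q * (C (α j) * X 0 + C (β j) * X 1) + C (γ j) * g) = q • l + g • γ' := by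
    funext j
    rw [hl, hγ]
    simp only [Pi.add_apply, Pi.smul_apply, smul_eq_mul]
    ring
  rw [h1, aeval_eq_Fc hF, ← hP, Fc_line] at h
  have hFγ : Fc P γ' = C (Fc (cm (algebraMap ℂ E) (cub F)) γ) := by
    rw [hPc, hγ]
    exact Fc_cm C γ
  have hDγ : Dc P γ' l = C (Dc (cm (algebraMap ℂ E) (cub F)) γ α) * X 0 +
      C (Dc (cm (algebraMap ℂ E) (cub F)) γ β) * X 1 := by
    have h2 : l = (X 0 : MvPolynomial (Fin 2) E) • (fun j => (C (α j) : MvPolynomial (Fin 2) E)) +
        (X 1 : MvPolynomial (Fin 2) E) • (fun j => (C (β j) : MvPolynomial (Fin 2) E)) := by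
      funext j
      rw [hl]
      simp only [Pi.add_apply, Pi.smul_apply, smul_eq_mul]
      ring
    rw [h2, Dc_add_right, Dc_smul_right, Dc_smul_right, hPc, hγ]
    have e1 := Dc_cm (c := cm (algebraMap ℂ E) (cub F)) (C : E →+* MvPolynomial (Fin 2) E) γ α
    have e2 := Dc_cm (c := cm (algebraMap ℂ E) (cub F)) (C : E →+* MvPolynomial (Fin 2) E) γ β
    rw [e1, e2]
    ring
  have hd1 : q ∣ Fc P γ' := by
    have h3 : q ∣ g ^ 3 * Fc P γ' := by
      refine ⟨-(q ^ 2 * Fc P l + q * g * Dc P l γ' + g ^ 2 * Dc P γ' l), ?_⟩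
      linear_combination h
    exact (hg.pow_right (n := 3)).dvd_of_dvd_mul_left h3
  have hF0 : Fc P γ' = 0 := not_dvd_low hq hq0 (by rw [hFγ, totalDegree_C]; omega) hd1
  rw [hF0, mul_zero, add_zero] at h
  have h4 : q * (q ^ 2 * Fc P l + q * g * Dc P l γ' + g ^ 2 * Dc P γ' l) = 0 := by
    linear_combination h
  have h5 := (mul_eq_zero.1 h4).resolve_left hq0
  have hd2 : q ∣ Dc P γ' l := by
    have h3 : q ∣ g ^ 2 * Dc P γ' l := by
      refine ⟨-(q * Fc P l + g * Dc P l γ'), ?_⟩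
      linear_combination h5
    exact (hg.pow_right (n := 2)).dvd_of_dvd_mul_left h3
  have hD0 : Dc P γ' l = 0 := not_dvd_low hq hq0 (by
    rw [hDγ]
    refine (totalDegree_add _ _).trans (max_le ?_ ?_)
    · refine (totalDegree_mul _ _).trans ?_
      rw [totalDegree_C, totalDegree_X]
    · refine (totalDegree_mul _ _).trans ?_
      rw [totalDegree_C, totalDegree_X]) hd2
  rw [hDγ] at hD0
  refine ⟨?_, ?_, ?_⟩
  · rw [hFγ] at hF0
    exact C_injective _ _ (by rw [hF0, C_0])
  · have h6 := congrArg (eval ![1, 0]) hD0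
    simpa using h6
  · have h6 := congrArg (eval ![0, 1]) hD0
    simpa using h6

end poly

end MP2619.Q3
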