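import Pool.Agent.Lib.MP_2619d0_ag.Q3.StableN
import Pool.Agent.Lib.MP_2619d0_ag.Q3.Plane

/-!
Specialising the factor `𝔸^r`; the tangent law and plane cubics.
-/

set_option autoImplicit false

namespace MP2619.Q3

universe u

open MvPolynomial Pool.Agent.Lib.MP_2619d0_ag Pool.Agent.Lib.MP_2619d0_ag.T MP2619.T MP2619.R
  MP2619.CUB

theorem aeval_comb' {σ A B : Type*} [CommRing A] [CommRing B] [Algebra ℂ A] [Algebra ℂ B]
    (f : A →ₐ[ℂ] B) (F : MvPolynomial σ ℂ) (g : σ → A) :
    f (aeval g F) = aeval (fun j => f (g j)) F := by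
  rw [MvPolynomial.comp_aeval_apply]

/-- Specialising the parameters `v`. -/
theorem spec_gen {m r : ℕ} {F : MvPolynomial (Fin (m+1+1)) ℂ} {L : Type u} [Field L] [Algebra ℂ L]
    (x : Fin (m+1+1) → L) (hx : HG F x) (hx1 : x 0 = 1) (v : Fin r → L)
    (hv : AlgebraicIndependent (ratioField x) v)
    (hodd : Odd (Module.finrank (IntermediateField.adjoin (ratioField x) (Set.range v)) L))
    {ι : Type} [Fintype ι] (P : ι → L) :
    ∃ (L1 : Type u) (_ : Field L1) (_ : Algebra ℂ L1) (x1 : Fin (m+1+1) → L1) (P1 : ι → L1),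
      HG F x1 ∧ x1 0 = 1 ∧ Odd (Module.finrank (ratioField x1) L1) ∧
        ∀ G : MvPolynomial (ι ⊕ Fin (m+1+1)) ℂ, aeval (Sum.elim P x) G = 0 →
          aeval (Sum.elim P1 x1) G = 0 := by
  classical
  obtain ⟨K0, hK0x⟩ : ∃ K0 : IntermediateField ℂ L, K0 = ratioField x := ⟨_, rfl⟩
  rw [← hK0x] at hodd hv
  have hKC : CharZero K0 := charZero_of_injective_algebraMap (algebraMap ℂ K0).injective
  have hmem : ∀ j, x j ∈ K0 := by
    intro j
    rw [hK0x]
    exact IntermediateField.subset_adjoin _ _ ⟨j, 0, by rw [hx1, div_one]⟩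
  obtain ⟨y, hy⟩ : ∃ y : Fin (m+1+1) → K0, ∀ j, algebraMap K0 L (y j) = x j :=
    ⟨fun j => ⟨x j, hmem j⟩, fun j => rfl⟩
  have hy1 : y 0 = 1 := by
    apply (algebraMap K0 L).injective
    rw [hy, hx1, map_one]
  obtain ⟨L1, fL1, aL1, p1, hp1, hodd1⟩ := odd_spec (ι := ι) r v hv hodd P
  let aC : Algebra ℂ L1 := ((algebraMap K0 L1).comp (algebraMap ℂ K0)).toAlgebra
  have tw : IsScalarTower ℂ K0 L1 := IsScalarTower.of_algebraMap_eq fun _ => rfl
  obtain ⟨x1, hxd⟩ : ∃ x1 : Fin (m+1+1) → L1, x1 = fun j => algebraMap K0 L1 (y j) := ⟨_, rfl⟩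
  have hx10 : x1 0 = 1 := by rw [hxd]; change algebraMap K0 L1 (y 0) = 1; rw [hy1, map_one]
  -- the generic point
  have hyL : HG F (fun j => algebraMap K0 L (y j)) := by
    have h1 : (fun j => algebraMap K0 L (y j)) = x := funext hy
    rw [h1]
    exact hx
  have hyG : HG F y := HG_algebraMap.1 hyL
  have hg1 : HG F x1 := by
    rw [hxd]
    exact HG_algebraMap.2 hyG
  -- the degree
  have htop : IntermediateField.adjoin ℂ {z : K0 | ∃ i j, z = y i / y j} = ⊤ := by
    apply IntermediateField.lift_injective K0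
    rw [IntermediateField.lift_adjoin, IntermediateField.lift_top]
    refine Eq.trans ?_ hK0x.symm
    unfold ratioField
    congr 1
    ext z
    constructor
    · rintro ⟨_, ⟨i, j, rfl⟩, rfl⟩
      refine ⟨i, j, ?_⟩
      rw [← hy i, ← hy j]
      rfl
    · rintro ⟨i, j, rfl⟩
      refine ⟨y i / y j, ⟨i, j, rfl⟩, ?_⟩
      rw [← hy i, ← hy j]
      rfl
  have hrf : ratioField x1 = (IsScalarTower.toAlgHom ℂ K0 L1).fieldRange := by
    rw [hxd, AlgHom.fieldRange_eq_map, ← htop, IntermediateField.adjoin_map]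
    unfold ratioField
    congr 1
    ext z
    constructor
    · rintro ⟨i, j, rfl⟩
      exact ⟨y i / y j, ⟨i, j, rfl⟩, by
        change algebraMap K0 L1 (y i / y j) = _
        rw [map_div₀]⟩
    · rintro ⟨_, ⟨i, j, rfl⟩, rfl⟩
      refine ⟨i, j, ?_⟩
      change algebraMap K0 L1 (y i / y j) = _
      rw [map_div₀]
  have hfin : Module.finrank (ratioField x1) L1 = Module.finrank K0 L1 := by
    rw [hrf]
    symm
    exact Algebra.finrank_eq_of_equiv_equiv
      (AlgEquiv.ofInjectiveField (IsScalarTower.toAlgHom ℂ K0 L1)).toRingEquiv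
      (RingEquiv.refl _) (by ext x; rfl)
  refine ⟨L1, fL1, aC, x1, p1, hg1, hx10, by rw [hfin]; exact hodd1, ?_⟩
  intro G hG
  obtain ⟨g, hg⟩ : ∃ g : ι ⊕ Fin (m+1+1) → MvPolynomial ι K0,
    g = Sum.elim X (fun j => C (y j)) := ⟨_, rfl⟩
  have h1 := hp1 (aeval g G) (by
    have h2 := aeval_comb' ((aeval P : MvPolynomial ι K0 →ₐ[K0] L).restrictScalars ℂ) G g
    refine h2.trans ?_
    have h3 : (fun j => ((aeval P : MvPolynomial ι K0 →ₐ[K0] L).restrictScalars ℂ) (g j)) =
        Sum.elim P x := by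
      funext j
      change aeval P (g j) = _
      rw [hg]
      rcases j with j | j
      · simp only [Sum.elim_inl, aeval_X]
      · simp only [Sum.elim_inr, aeval_C, hy]
    rw [h3]
    exact hG)
  have h2 := aeval_comb' ((aeval p1 : MvPolynomial ι K0 →ₐ[K0] L1).restrictScalars ℂ) G g
  have h3 : (fun j => ((aeval p1 : MvPolynomial ι K0 →ₐ[K0] L1).restrictScalars ℂ) (g j)) =
      Sum.elim p1 x1 := by
    funext j
    change aeval p1 (g j) = _
    rw [hg, hxd]
    rcases j with j | j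
    · simp only [Sum.elim_inl, aeval_X]
    · simp only [Sum.elim_inr, aeval_C]
  rw [h3] at h2
  exact h2.symm.trans h1

/-- The tangent law: an odd generic point `x` does not lie on the tangent space of `X` at another
point. -/
theorem stable_tan {m r : ℕ} (hm : 1 ≤ m) {F : MvPolynomial (Fin (m+1+1)) ℂ} (hF : VG F)
    {L : Type u} [Field L] [Algebra ℂ L] (x : Fin (m+1+1) → L) (hx : HG F x)
    (y : Fin (m+1+1) → L) (hyF : aeval y F = 0) (hyx : ∀ c : L, y ≠ c • x)
    (hD : ∑ j, x j * aeval y (pderiv j F) = 0) (v : Fin r → L)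
    (hv : AlgebraicIndependent (ratioField x) v) :
    ¬ Odd (Module.finrank (IntermediateField.adjoin (ratioField x) (Set.range v)) L) := by
  classical
  intro hodd
  have hx0 : x 0 ≠ 0 := HG_zero hF hx
  obtain ⟨c, hc⟩ : ∃ c : L, c = (x 0)⁻¹ := ⟨_, rfl⟩
  have hc0 : c ≠ 0 := by rw [hc]; exact inv_ne_zero hx0
  have hrf : ratioField (c • x) = ratioField x := ratioField_smul' x hc0
  obtain ⟨x', hx'⟩ : ∃ x' : Fin (m+1+1) → L, x' = c • x := ⟨_, rfl⟩
  have hx'0 : x' 0 = 1 := by rw [hx', Pi.smul_apply, smul_eq_mul, hc, inv_mul_cancel₀ hx0]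
  have hgx' : HG F x' := by rw [hx']; exact HG_smul hx c hc0
  rw [← hx'] at hrf
  rw [← hrf] at hodd hv
  have hD' : ∑ j, x' j * aeval y (pderiv j F) = 0 := by
    have h1 : ∑ j, x' j * aeval y (pderiv j F) = c * ∑ j, x j * aeval y (pderiv j F) := by
      rw [Finset.mul_sum, hx']
      refine Finset.sum_congr rfl fun j _ => ?_
      rw [Pi.smul_apply, smul_eq_mul, mul_assoc]
    rw [h1, hD, mul_zero]
  obtain ⟨j1, hj1⟩ : ∃ j, y j - y 0 * x' j ≠ 0 := by
    by_contra hcon
    push Not at hcon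
    apply hyx (y 0 * c)
    funext j
    have h1 := hcon j
    rw [hx'] at h1
    simp only [Pi.smul_apply, smul_eq_mul] at h1 ⊢
    linear_combination h1
  obtain ⟨z, hz⟩ : ∃ z : L, z * (y j1 - y 0 * x' j1) = 1 := ⟨_, inv_mul_cancel₀ hj1⟩
  obtain ⟨L1, fL1, aL1, x1, P1, hg1, hx10, hodd1, hrel⟩ :=
    spec_gen x' hgx' hx'0 v hv hodd (Sum.elim y (fun _ : Unit => z))
  obtain ⟨y1, hy1⟩ : ∃ y1 : Fin (m+1+1) → L1, ∀ j, y1 j = P1 (Sum.inl j) := ⟨_, fun _ => rfl⟩
  obtain ⟨z1, hz1⟩ : ∃ z1 : L1, z1 = P1 (Sum.inr ()) := ⟨_, rfl⟩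
  have hren : ∀ G : MvPolynomial (Fin (m+1+1)) ℂ,
      aeval (Sum.elim (Sum.elim y (fun _ : Unit => z)) x')
        (rename (Sum.inl ∘ Sum.inl : Fin (m+1+1) → (Fin (m+1+1) ⊕ Unit) ⊕ Fin (m+1+1)) G) =
        aeval y G := by
    intro G
    rw [aeval_rename]
    rfl
  have hren1 : ∀ G : MvPolynomial (Fin (m+1+1)) ℂ,
      aeval (Sum.elim P1 x1)
        (rename (Sum.inl ∘ Sum.inl : Fin (m+1+1) → (Fin (m+1+1) ⊕ Unit) ⊕ Fin (m+1+1)) G) =
        aeval y1 G := by
    intro G
    rw [aeval_rename]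
    congr 1
    congr 1
    funext j
    rw [hy1]
    rfl
  have hF1 : aeval y1 F = 0 := by
    rw [← hren1]
    apply hrel
    rw [hren]
    exact hyF
  have hD1 : ∑ j, x1 j * aeval y1 (pderiv j F) = 0 := by
    have h1 := hrel (∑ j, X (Sum.inr j) *
      rename (Sum.inl ∘ Sum.inl : Fin (m+1+1) → (Fin (m+1+1) ⊕ Unit) ⊕ Fin (m+1+1)) (pderiv j F))
      (by
        rw [map_sum]
        refine Eq.trans ?_ hD'
        refine Finset.sum_congr rfl fun j _ => ?_
        rw [map_mul, hren, aeval_X, Sum.elim_inr])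
    rw [map_sum] at h1
    refine Eq.trans ?_ h1
    refine Finset.sum_congr rfl fun j _ => ?_
    rw [map_mul, hren1, aeval_X, Sum.elim_inr]
  have hz2 : z1 * (y1 j1 - y1 0 * x1 j1) = 1 := by
    have h1 := hrel (X (Sum.inl (Sum.inr ())) * (X (Sum.inl (Sum.inl j1)) -
      X (Sum.inl (Sum.inl 0)) * X (Sum.inr j1)) - C 1) (by
        simp only [map_sub, map_mul, aeval_X, Sum.elim_inl, Sum.elim_inr, map_one]
        rw [hz, sub_self])
    simp only [map_sub, map_mul, aeval_X, Sum.elim_inl, Sum.elim_inr, map_one] at h1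
    rw [hz1, hy1, hy1]
    exact sub_eq_zero.1 h1
  refine (third_hom2 (N := m+1) (by omega) hF x1 hg1 hodd1 y1 hF1 ?_).1 hD1
  intro c' h1
  have e0 := congrFun h1 0
  have e1 := congrFun h1 j1
  rw [Pi.smul_apply, smul_eq_mul, hx10, mul_one] at e0
  rw [Pi.smul_apply, smul_eq_mul] at e1
  rw [e0, e1, sub_self, mul_zero] at hz2
  exact zero_ne_one hz2

/-- Forms of degree at most two. -/
theorem low_N {m D N r : ℕ} (hm : 1 ≤ m) {F : MvPolynomial (Fin (m+1+1)) ℂ} (hF : VG F)
    (hT : ThirdOdd.{u} F) (hD1 : D + 1 ≤ m) {E L : Type u} [Field E] [Field L] [Algebra ℂ E]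
    [Algebra ℂ L] [Algebra E L] [IsScalarTower ℂ E L] {e : ℕ} (he : e ≤ 2)
    (φ : Fin (m+1+1) → MvPolynomial (Fin N) E) (hφ : ∀ j, (φ j).IsHomogeneous e)
    (h0 : aeval φ F = 0) (p : Fin N → L) (x : Fin (m+1+1) → L)
    (hxd : x = fun j => aeval p (φ j)) (hx : HG F x)
    (hE : Algebra.trdeg ℂ E ≤ (D : Cardinal.{u})) (v : Fin r → L)
    (hv : AlgebraicIndependent (ratioField x) v) :
    ¬ Odd (Module.finrank (IntermediateField.adjoin (ratioField x) (Set.range v)) L) := by
  classical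
  have hx0 : x 0 ≠ 0 := HG_zero hF hx
  by_cases hp : ∃ i, p i ≠ 0
  · obtain ⟨i, hi⟩ := hp
    obtain ⟨c, hc⟩ : ∃ c : L, c = p i ^ (2 - e) := ⟨_, rfl⟩
    have hc0 : c ≠ 0 := by
      rw [hc]
      exact pow_ne_zero _ hi
    have hx' : c • x = fun j => aeval p (X i ^ (2 - e) * φ j) := by
      funext j
      rw [map_mul, map_pow, aeval_X, Pi.smul_apply, smul_eq_mul, hc, hxd]
    have h1 := fam_baseN (E := E) hm hF hT hD1 (fun j => X i ^ (2 - e) * φ j) (fun j => by
      have h2 := ((isHomogeneous_X E i).pow (2 - e)).mul (hφ j)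
      have h3 : 1 * (2 - e) + e = 2 := by omega
      rw [h3] at h2
      exact h2) (by
        have h2 := aeval_smul_hom hF.1 (X i ^ (2 - e)) φ
        exact h2.trans (by rw [h0, mul_zero])) p (c • x) hx' (HG_smul hx c hc0) hE v
    have h2 : ratioField (c • x) = ratioField x := ratioField_smul' x hc0
    rw [h2] at h1
    exact h1 hv
  · push Not at hp
    have hp0 : p = 0 := funext hp
    intro _
    refine not_E_any hF x hx hE hD1 1 (fun j => coeff 0 (φ j)) (fun j => ?_) one_ne_zero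
    rw [one_mul, hxd, hp0]
    have h1 : aeval (0 : Fin N → L) (φ j) = algebraMap E L (constantCoeff (φ j)) := by
      rw [← MvPolynomial.aeval_zero]
    exact h1.symm

/-- Families of plane rational cubic curves. -/
theorem plane_fam {m D r : ℕ} (hm : 1 ≤ m) {F : MvPolynomial (Fin (m+1+1)) ℂ} (hF : VG F)
    (hT : ThirdOdd.{u} F) (hD1 : D + 1 ≤ m) {E L : Type u} [Field E] [Field L] [Algebra ℂ E]
    [Algebra ℂ L] [Algebra E L] [IsScalarTower ℂ E L] (V : Fin (m+1+1) → Fin 4 → E)
    (lam : Fin 4 → E) (hlam : lam ≠ 0) (hlV : ∀ j, ∑ i, lam i * V j i = 0)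
    (h0 : aeval (fun j => bf (V j)) F = 0) (p : Fin 2 → L) (x : Fin (m+1+1) → L)
    (hxd : x = fun j => aeval p (bf (V j))) (hx : HG F x)
    (hE : Algebra.trdeg ℂ E ≤ (D : Cardinal.{u})) (v : Fin r → L)
    (hv : AlgebraicIndependent (ratioField x) v) :
    ¬ Odd (Module.finrank (IntermediateField.adjoin (ratioField x) (Set.range v)) L) := by
  classical
  have hx0 : x 0 ≠ 0 := HG_zero hF hx
  have hne : ∃ j, bf (V j) ≠ 0 := by
    refine ⟨0, fun h => hx0 ?_⟩
    rw [hxd]
    change aeval p (bf (V 0)) = 0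
    rw [h, map_zero]
  by_cases hcop : Cop (fun j => bf (V j))
  · obtain ⟨q, hq0, hqA, hqB⟩ := pl_quad lam
    obtain ⟨A, hA⟩ : ∃ A : Fin 4 → E, A = ![q 0, q 1, q 2, 0] := ⟨_, rfl⟩
    obtain ⟨B, hB⟩ : ∃ B : Fin 4 → E, B = ![0, q 0, q 1, q 2] := ⟨_, rfl⟩
    have hbA : bf A = qf q * X 0 := by rw [hA]; exact bf_A q
    have hbB : bf B = qf q * X 1 := by rw [hB]; exact bf_B q
    have hlA : ∑ i, lam i * A i = 0 := by
      rw [hA, Fin.sum_univ_four]
      simp only [Matrix.cons_val_zero, Matrix.cons_val_one, Matrix.cons_val]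
      linear_combination hqA
    have hlB : ∑ i, lam i * B i = 0 := by
      rw [hB, Fin.sum_univ_four]
      simp only [Matrix.cons_val_zero, Matrix.cons_val_one, Matrix.cons_val]
      linear_combination hqB
    have hqn := qf_ne q hq0
    have hqu : ¬ IsUnit (qf q) := by
      intro hu
      have h1 := not_dvd_low (h := (1 : MvPolynomial (Fin 2) E)) (qf_hom q) hqn
        (by rw [totalDegree_one]; omega) hu.dvd
      exact one_ne_zero h1
    obtain ⟨j0, hj0⟩ : ∃ j, V j ∉ Submodule.span E (Set.range ![A, B]) := by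
      by_contra hcon
      push Not at hcon
      apply hqu
      apply hcop
      intro j
      have h1 := hcon j
      rw [Submodule.mem_span_range_iff_exists_fun] at h1
      obtain ⟨c, hc⟩ := h1
      rw [Fin.sum_univ_two] at hc
      change c 0 • A + c 1 • B = V j at hc
      change qf q ∣ bf (V j)
      rw [← hc, bf_add, bf_smul, bf_smul, hbA, hbB]
      exact ⟨C (c 0) * X 0 + C (c 1) * X 1, by ring⟩
    have hind : LinearIndependent E ![V j0, A, B] := by
      have h1 : LinearIndependent E ![A, B] := by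
        rw [LinearIndependent.pair_iff]
        intro s t hst
        have h2 : (C s * X 0 + C t * X 1 : MvPolynomial (Fin 2) E) = 0 := by
          have h3 : qf q * (C s * X 0 + C t * X 1) = 0 := by
            have h4 : bf (s • A + t • B) = 0 := by
              rw [hst]
              unfold bf
              simp only [Pi.zero_apply, C_0, zero_mul, add_zero]
            rw [bf_add, bf_smul, bf_smul, hbA, hbB] at h4
            linear_combination h4
          exact (mul_eq_zero.1 h3).resolve_left hqn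
        constructor
        · have h6 := congrArg (eval ![1, 0]) h2
          simpa using h6
        · have h6 := congrArg (eval ![0, 1]) h2
          simpa using h6
      exact linearIndependent_finCons.2 ⟨h1, hj0⟩
    choose α β γ hV using fun j => pl_span lam A B (V j0) hlam hlA hlB (hlV j0) hind (V j) (hlV j)
    obtain ⟨g, hg⟩ : ∃ g, g = bf (V j0) := ⟨_, rfl⟩
    have hφ : ∀ j, bf (V j) = qf q * (C (α j) * X 0 + C (β j) * X 1) + C (γ j) * g := by
      intro j
      rw [hV j, bf_add, bf_add, bf_smul, bf_smul, bf_smul, hbA, hbB, ← hg]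
      ring
    have hrel : IsRelPrime (qf q) g := by
      intro d hd1 hd2
      apply hcop
      intro j
      change d ∣ bf (V j)
      rw [hφ j]
      exact dvd_add (hd1.mul_right _) (hd2.mul_left _)
    have h0' : aeval (fun j => qf q * (C (α j) * X 0 + C (β j) * X 1) + C (γ j) * g) F = 0 := by
      have h1 : (fun j => qf q * (C (α j) * X 0 + C (β j) * X 1) + C (γ j) * g) =
          fun j => bf (V j) := funext fun j => (hφ j).symm
      rw [h1]
      exact h0
    obtain ⟨s1, s2, s3⟩ := plane_sing hF.1 α β γ (qf q) g (qf_hom q) hqn hrel h0'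
    obtain ⟨y, hy⟩ : ∃ y : Fin (m+1+1) → L, y = fun j => algebraMap E L (γ j) := ⟨_, rfl⟩
    have hcE : cL L F = cm (algebraMap E L) (cm (algebraMap ℂ E) (cub F)) := by
      unfold cL
      rw [cm_comp, ← IsScalarTower.algebraMap_eq]
    have t1 : Fc (cL L F) y = 0 := by
      rw [hcE, hy]
      exact (Fc_cm (algebraMap E L) γ).trans (by rw [s1, map_zero])
    have t2 : Dc (cL L F) y (fun j => algebraMap E L (α j)) = 0 := by
      rw [hcE, hy]
      exact (Dc_cm (algebraMap E L) γ α).trans (by rw [s2, map_zero])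
    have t3 : Dc (cL L F) y (fun j => algebraMap E L (β j)) = 0 := by
      rw [hcE, hy]
      exact (Dc_cm (algebraMap E L) γ β).trans (by rw [s3, map_zero])
    have hxe : x = (aeval p (qf q) * p 0) • (fun j => algebraMap E L (α j)) +
        (aeval p (qf q) * p 1) • (fun j => algebraMap E L (β j)) + aeval p g • y := by
      rw [hxd, hy]
      funext j
      simp only [Pi.add_apply, Pi.smul_apply, smul_eq_mul]
      rw [hφ j]
      simp only [map_add, map_mul, aeval_X, aeval_C]
      ring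
    refine stable_tan hm hF x hx y ((aeval_eq_Fc hF.1 y).trans t1) ?_ ?_ v hv
    · intro c hc
      by_cases hc0 : c = 0
      · apply hqu
        apply hcop
        intro j
        change qf q ∣ bf (V j)
        have h1 := congrFun hc j
        rw [hc0, hy, zero_smul, Pi.zero_apply] at h1
        have h2 : γ j = 0 := (map_eq_zero (algebraMap E L)).1 h1
        rw [hφ j, h2, C_0, zero_mul, add_zero]
        exact dvd_mul_right _ _
      · refine not_E_any hF x hx hE hD1 c γ (fun j => ?_) hc0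
        have h1 := congrFun hc j
        rw [hy] at h1
        exact h1
    · rw [← Dc_eq_sum_pderiv hF.1 y x]
      change Dc (cL L F) y x = 0
      rw [hxe, Dc_add_right, Dc_add_right, Dc_smul_right, Dc_smul_right, Dc_smul_right, Dc_self,
        t1, t2, t3]
      ring
  · obtain ⟨g, ψ, e, he, hg0, hψ, hgψ⟩ := not_cop2 (fun j => bf (V j)) (fun j => bf_hom (V j)) hne
      hcop
    have hxg : ∀ j, x j = aeval p g * aeval p (ψ j) := by
      intro j
      rw [← map_mul, ← hgψ, hxd]
    have hgp : aeval p g ≠ 0 := by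
      intro h
      have h1 := hxg 0
      rw [h, zero_mul] at h1
      exact hx0 h1
    have hx' : (aeval p g)⁻¹ • x = fun j => aeval p (ψ j) := by
      funext j
      rw [Pi.smul_apply, smul_eq_mul, hxg, inv_mul_cancel_left₀ hgp]
    have h0' : aeval ψ F = 0 := by
      have h2 := aeval_smul_hom hF.1 g ψ
      have h3 : (fun j => g * ψ j) = fun j => bf (V j) := funext fun j => (hgψ j).symm
      rw [h3, h0] at h2
      exact (mul_eq_zero.1 h2.symm).resolve_left (pow_ne_zero _ hg0)
    have hc0 := inv_ne_zero hgp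
    have h1 := low_N hm hF hT hD1 he ψ hψ h0' p ((aeval p g)⁻¹ • x) hx' (HG_smul hx _ hc0) hE v
    have h2 : ratioField ((aeval p g)⁻¹ • x) = ratioField x := ratioField_smul' x hc0
    rw [h2] at h1
    exact h1 hv

end MP2619.Q3
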