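import Pool.Agent.Lib.MP_2619d0_ag.TBridge

/-!
A fixed form is not divisible by the very general cubic form.
-/

set_option autoImplicit false

namespace MP2619.Q3

open MvPolynomial Pool.Agent.Lib.MP_2619d0_ag Pool.Agent.Lib.MP_2619d0_ag.T

theorem eval_exp3 {n : ℕ} {F : MvPolynomial (Fin n) ℂ} (hF : F.IsHomogeneous 3)
    (s : Fin n → ℂ) : eval s F = ∑ j : Exp3 n, coeff j.1 F * ∏ i, s i ^ j.1 i := by
  classical
  rw [eval_eq' s F]
  symm
  have h1 : ∀ d ∈ F.support, d.degree = 3 := by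
    intro d hd
    rw [Finsupp.degree_eq_weight_one]
    exact hF (mem_support_iff.1 hd)
  have h2 : ∑ j : Exp3 n, coeff j.1 F * ∏ i, s i ^ j.1 i =
      ∑ j ∈ (Finset.univ.filter fun j : Exp3 n => j.1 ∈ F.support),
        coeff j.1 F * ∏ i, s i ^ j.1 i := by
    rw [Finset.sum_filter]
    refine Finset.sum_congr rfl fun j _ => ?_
    split_ifs with h
    · rfl
    · rw [notMem_support_iff.1 h, zero_mul]
  rw [h2]
  refine Finset.sum_bij (fun j _ => j.1) ?_ ?_ ?_ ?_
  · intro j hj
    exact (Finset.mem_filter.1 hj).2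
  · intro j _ k _ h
    exact Subtype.ext h
  · intro d hd
    exact ⟨⟨d, h1 d hd⟩, Finset.mem_filter.2 ⟨Finset.mem_univ _, hd⟩, rfl⟩
  · intro j _
    rfl

theorem not_dvd {n : ℕ} {F G : MvPolynomial (Fin (n + 1 + 1)) ℂ} (hF : F.IsHomogeneous 3)
    (k0 : Subfield ℂ)
    (hind : AlgebraicIndependent k0 (fun j : Exp3 (n + 1 + 1) => coeff j.1 F)) (hG0 : G ≠ 0)
    (hGk : ∀ e, coeff e G ∈ k0) : ¬ F ∣ G := by
  classical
  intro hdvd
  obtain ⟨g, hg⟩ : ∃ g, g = finSuccEquiv ℂ (n + 1) G := ⟨_, rfl⟩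
  have hg0 : g ≠ 0 := by
    rw [hg]
    exact fun h => hG0 ((map_eq_zero_iff _ (finSuccEquiv ℂ (n + 1)).injective).1 h)
  obtain ⟨i, hi⟩ : ∃ i, g.coeff i ≠ 0 := by
    by_contra hcon
    push Not at hcon
    exact hg0 (Polynomial.ext fun i => by rw [hcon i, Polynomial.coeff_zero])
  obtain ⟨a, ha, hai⟩ : ∃ a : Fin (n + 1) → ℂ, (∀ j, a j ∈ k0) ∧ eval a (g.coeff i * X 0) ≠ 0 := by
    by_contra hcon
    push Not at hcon
    have h1 : g.coeff i * X 0 = 0 := by
      refine funext_set (fun _ => (k0 : Set ℂ)) (fun _ => ?_) fun x hx => ?_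
      · exact Set.infinite_coe_iff.1 (inferInstance : Infinite k0)
      · rw [map_zero]
        exact hcon x fun j => hx j (Set.mem_univ j)
    exact mul_ne_zero hi (X_ne_zero 0) h1
  rw [map_mul, eval_X] at hai
  have ha0 : a 0 ≠ 0 := right_ne_zero_of_mul hai
  have hgi : eval a (g.coeff i) ≠ 0 := left_ne_zero_of_mul hai
  -- a root
  obtain ⟨f, hf⟩ : ∃ f, f = Polynomial.map (eval a) (finSuccEquiv ℂ (n + 1) F) := ⟨_, rfl⟩
  have hf3 : f.coeff 3 ≠ 0 := by
    have h2 : f.coeff 3 = eval a (Polynomial.coeff (finSuccEquiv ℂ (n + 1) F) 3) := by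
      rw [hf, Polynomial.coeff_map]
    have h3 : Polynomial.coeff (finSuccEquiv ℂ (n + 1) F) 3 =
        C (coeff (Finsupp.single 0 3) F) := by
      refine MvPolynomial.ext _ _ fun d => ?_
      rw [finSuccEquiv_coeff_coeff, coeff_C]
      split_ifs with hd
      · congr 1
        rw [← hd]
        ext j
        refine Fin.cases ?_ (fun j => ?_) j
        · rw [Finsupp.cons_zero, Finsupp.single_eq_same]
        · rw [Finsupp.cons_succ, Finsupp.single_apply, if_neg (Fin.succ_ne_zero j).symm]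
          rfl
      · by_contra hne
        have h4 := hF hne
        apply hd
        have h5 : (Finsupp.cons 3 d).degree = 3 := by
          rw [Finsupp.degree_eq_weight_one]
          exact h4
        have h6 : (Finsupp.cons 3 d).degree = 3 + d.degree := by
          rw [Finsupp.degree_eq_sum, Finsupp.degree_eq_sum, Fin.sum_univ_succ, Finsupp.cons_zero]
          simp only [Finsupp.cons_succ]
        have h7 : d.degree = 0 := by omega
        exact ((Finsupp.degree_eq_zero_iff d).1 h7).symm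
    rw [h2, h3, eval_C]
    exact hind.ne_zero (⟨Finsupp.single 0 3, by simp⟩ : Exp3 (n + 1 + 1))
  obtain ⟨t, ht⟩ : ∃ t, f.IsRoot t := by
    refine IsAlgClosed.exists_root f ?_
    intro hdeg
    have h1 := Polynomial.eq_C_of_degree_eq_zero hdeg
    rw [h1, Polynomial.coeff_C] at hf3
    exact hf3 (if_neg (by norm_num))
  have hFt : eval (Fin.cons t a : Fin (n + 1 + 1) → ℂ) F = 0 := by
    rw [eval_eq_eval_mv_eval', ← hf]
    exact ht
  have hGt : eval (Fin.cons t a : Fin (n + 1 + 1) → ℂ) G = 0 := by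
    obtain ⟨H, hH⟩ := hdvd
    rw [hH, map_mul, hFt, zero_mul]
  -- the root is algebraic
  have halg : IsAlgebraic k0 t := by
    obtain ⟨q, hq⟩ : ∃ q, q = Polynomial.map (eval a) g := ⟨_, rfl⟩
    have hq0 : q ≠ 0 := by
      intro h
      have h1 : q.coeff i = eval a (g.coeff i) := by rw [hq, Polynomial.coeff_map]
      rw [h, Polynomial.coeff_zero] at h1
      exact hgi h1.symm
    have hqk : ∀ j, q.coeff j ∈ k0 := by
      intro j
      rw [hq, Polynomial.coeff_map, hg, eval_eq']
      refine sum_mem fun d _ => mul_mem ?_ (prod_mem fun l _ => pow_mem (ha l) _)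
      rw [finSuccEquiv_coeff_coeff]
      exact hGk _
    obtain ⟨q', hq'⟩ : ∃ q' : Polynomial k0, q'.map (algebraMap k0 ℂ) = q := by
      have h1 : q ∈ Polynomial.lifts (algebraMap k0 ℂ) := by
        rw [Polynomial.lifts_iff_coeff_lifts]
        intro j
        exact ⟨⟨q.coeff j, hqk j⟩, rfl⟩
      exact (Polynomial.mem_lifts _).1 h1
    refine ⟨q', ?_, ?_⟩
    · rintro rfl
      rw [Polynomial.map_zero] at hq'
      exact hq0 hq'.symm
    · rw [Polynomial.aeval_def, ← Polynomial.eval_map, hq', hq, hg,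
        ← eval_eq_eval_mv_eval', hGt]
  -- independence over the algebraic closure
  let K : IntermediateField k0 ℂ := algebraicClosure k0 ℂ
  have hK : AlgebraicIndependent K (fun j : Exp3 (n + 1 + 1) => coeff j.1 F) :=
    hind.extendScalars K
  have hmem : ∀ j, (Fin.cons t a : Fin (n + 1 + 1) → ℂ) j ∈ K := by
    intro j
    refine Fin.cases ?_ (fun j => ?_) j
    · rw [Fin.cons_zero]
      exact mem_algebraicClosure_iff.2 halg
    · rw [Fin.cons_succ]
      exact mem_algebraicClosure_iff.2 (isAlgebraic_algebraMap (⟨a j, ha j⟩ : k0))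
  let b : Fin (n + 1 + 1) → K := fun j => ⟨_, hmem j⟩
  have hrel := hFt
  rw [eval_exp3 hF] at hrel
  have h1 : aeval (fun j : Exp3 (n + 1 + 1) => coeff j.1 F)
      (∑ j : Exp3 (n + 1 + 1), C (∏ i, b i ^ j.1 i) * X j : MvPolynomial (Exp3 (n + 1 + 1)) K) =
      0 := by
    rw [map_sum]
    rw [← hrel]
    refine Finset.sum_congr rfl fun j _ => ?_
    rw [map_mul, aeval_X, aeval_C, mul_comm]
    congr 1
    change K.val (∏ i, b i ^ j.1 i) = _
    rw [map_prod]
    refine Finset.prod_congr rfl fun i _ => ?_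
    rw [map_pow]
    rfl
  have h2 := (algebraicIndependent_iff.1 hK) _ h1
  have h3 := congrArg (coeff (Finsupp.single
    (⟨Finsupp.single 1 3, by simp⟩ : Exp3 (n + 1 + 1)) 1)) h2
  rw [coeff_sum, coeff_zero] at h3
  simp only [coeff_C_mul, coeff_X'] at h3
  rw [Finset.sum_eq_single (⟨Finsupp.single 1 3, by simp⟩ : Exp3 (n + 1 + 1))] at h3
  · rw [if_pos rfl, mul_one, Finset.prod_eq_zero_iff] at h3
    obtain ⟨i, -, hi⟩ := h3
    by_cases h4 : i = 1
    · subst h4
      rw [Finsupp.single_eq_same] at hi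
      have h5 := pow_eq_zero_iff (three_ne_zero) |>.1 hi
      have h6 : a 0 = 0 := congrArg Subtype.val h5
      exact ha0 h6
    · rw [Finsupp.single_apply, if_neg (fun h => h4 h.symm), pow_zero] at hi
      exact one_ne_zero hi
  · intro j _ hj
    rw [if_neg, mul_zero]
    intro h
    exact hj (Finsupp.single_left_injective one_ne_zero h)
  · intro h
    exact (h (Finset.mem_univ _)).elim

end MP2619.Q3
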