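import Pool.Agent.Lib.MP_2619d0_ag.Q3.Conic
import Pool.Agent.Lib.MP_2619d0_ag.CUB.Spec2
import Pool.Agent.Lib.MP_2619d0_ag.TTop
import Pool.Agent.Lib.MP_2619d0_ag.QMain
import Pool.Agent.Lib.MP_2619d0_ag.R.TQ
import Pool.Agent.Lib.MP_2619d0_ag.CUB.Any

/-!
Conics through an odd generic point: the version with a factor `𝔸^r`.
-/

set_option autoImplicit false

namespace MP2619.Q3

universe u

open MvPolynomial Pool.Agent.Lib.MP_2619d0_ag Pool.Agent.Lib.MP_2619d0_ag.T MP2619.T MP2619.R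
  MP2619.CUB

theorem trdeg_mono {L1 : Type u} [Field L1] [Algebra ℂ L1] {A B : IntermediateField ℂ L1}
    (h : A ≤ B) : Algebra.trdeg ℂ A ≤ Algebra.trdeg ℂ B :=
  _root_.trdeg_le_of_injective (IntermediateField.inclusion h)
    (IntermediateField.inclusion h).injective

theorem ratio_le {n : ℕ} {L L1 : Type u} [Field L] [Field L1] [Algebra ℂ L] [Algebra ℂ L1]
    (w : Fin n → L) (w1 : Fin n → L1) (j0 : Fin n) (t : L) (t1 : L1) (ht : t * w j0 = 1)
    (ht1 : t1 * w1 j0 = 1)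
    (h : ∀ G : MvPolynomial (Fin n) ℂ, aeval (fun j => t * w j) G = 0 →
      aeval (fun j => t1 * w1 j) G = 0) :
    Algebra.trdeg ℂ (ratioF w1) ≤ Algebra.trdeg ℂ (ratioF w) := by
  have hw0 : w j0 ≠ 0 := right_ne_zero_of_mul_eq_one ht
  have ht10 : t1 ≠ 0 := left_ne_zero_of_mul_eq_one ht1
  have hmem : ∀ j, t * w j ∈ ratioF w := by
    intro j
    have h1 : t * w j = w j / w j0 := by
      rw [eq_div_iff hw0]
      linear_combination w j * ht
    rw [h1]
    exact IntermediateField.subset_adjoin _ _ ⟨_, _, rfl⟩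
  have h1 := trdeg_spec (fun j => (⟨t * w j, hmem j⟩ : ratioF w)) (fun j => t1 * w1 j) (by
    intro G hG
    apply h
    have h2 := MvPolynomial.aeval_algebraMap_apply (R := ℂ) (A := ratioF w) L
      (fun j => (⟨t * w j, hmem j⟩ : ratioF w)) G
    rw [hG, map_zero] at h2
    exact h2)
  refine (trdeg_mono ?_).trans h1
  unfold ratioF
  rw [IntermediateField.adjoin_le_iff]
  rintro _ ⟨i, j, rfl⟩
  have h2 : w1 i / w1 j = (t1 * w1 i) / (t1 * w1 j) := (mul_div_mul_left _ _ ht10).symm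
  rw [h2]
  exact div_mem (IntermediateField.subset_adjoin _ _ ⟨i, rfl⟩)
    (IntermediateField.subset_adjoin _ _ ⟨j, rfl⟩)

theorem ratio_zero {n : ℕ} {L L1 : Type u} [Field L] [Field L1] [Algebra ℂ L] [Algebra ℂ L1]
    (w : Fin n → L) :
    Algebra.trdeg ℂ (ratioF (0 : Fin n → L1)) ≤ Algebra.trdeg ℂ (ratioF w) := by
  have h1 : ratioF (0 : Fin n → L1) ≤ ⊥ := by
    unfold ratioF
    rw [IntermediateField.adjoin_le_iff]
    rintro _ ⟨i, j, rfl⟩
    rw [Pi.zero_apply, zero_div]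
    exact zero_mem _
  refine (trdeg_mono h1).trans ?_
  have h2 : Algebra.trdeg ℂ (⊥ : IntermediateField ℂ L1) = 0 := by
    have h3 : Algebra.IsAlgebraic ℂ (⊥ : IntermediateField ℂ L1) :=
      (IntermediateField.botEquiv ℂ L1).symm.isAlgebraic
    rw [trdeg_eq_zero_iff]
    exact h3
  rw [h2]
  exact zero_le

/-- the value of `F` at a combination -/
theorem aeval_comb {n : ℕ} {A B : Type*} [CommRing A] [CommRing B] [Algebra ℂ A] [Algebra ℂ B]
    (f : A →ₐ[ℂ] B) (F : MvPolynomial (Fin n) ℂ) (g : Fin n → A) :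
    f (aeval g F) = aeval (fun j => f (g j)) F := by
  rw [MvPolynomial.comp_aeval_apply]

theorem all_s {n : ℕ} {K L1 : Type u} [Field K] [Field L1] [Infinite K] [Algebra K L1]
    [Algebra ℂ L1] (F : MvPolynomial (Fin n) ℂ) (w q x : Fin n → L1)
    (h : ∀ s : K, aeval ((algebraMap K L1 s) ^ 2 • w + (algebraMap K L1 s) • q + x) F = 0)
    (s : L1) : aeval (s ^ 2 • w + s • q + x) F = 0 := by
  have h1 : ∀ s : L1, Polynomial.eval s (aeval (fun j => Polynomial.C (w j) * Polynomial.X ^ 2 +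
      Polynomial.C (q j) * Polynomial.X + Polynomial.C (x j) : Fin n → Polynomial L1) F) =
      aeval (s ^ 2 • w + s • q + x) F := by
    intro s
    have h2 := aeval_comb ((Polynomial.aeval s : Polynomial L1 →ₐ[L1] L1).restrictScalars ℂ) F
      (fun j => Polynomial.C (w j) * Polynomial.X ^ 2 +
      Polynomial.C (q j) * Polynomial.X + Polynomial.C (x j))
    have h3 : (fun j => ((Polynomial.aeval s : Polynomial L1 →ₐ[L1] L1).restrictScalars ℂ)
        (Polynomial.C (w j) * Polynomial.X ^ 2 + Polynomial.C (q j) * Polynomial.X +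
          Polynomial.C (x j))) = s ^ 2 • w + s • q + x := by
      funext j
      change Polynomial.aeval s (Polynomial.C (w j) * Polynomial.X ^ 2 +
        Polynomial.C (q j) * Polynomial.X + Polynomial.C (x j)) = _
      simp only [map_add, map_mul, map_pow, Polynomial.aeval_C, Polynomial.aeval_X,
        Algebra.algebraMap_self, RingHom.id_apply, Pi.add_apply, Pi.smul_apply, smul_eq_mul]
      ring
    rw [h3] at h2
    rw [← h2]
    rfl
  have h2 : (aeval (fun j => Polynomial.C (w j) * Polynomial.X ^ 2 +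
      Polynomial.C (q j) * Polynomial.X + Polynomial.C (x j) : Fin n → Polynomial L1) F) = 0 := by
    apply Polynomial.eq_zero_of_infinite_isRoot
    refine Set.Infinite.mono ?_ (Set.infinite_range_of_injective (algebraMap K L1).injective)
    rintro _ ⟨s, rfl⟩
    change Polynomial.eval _ _ = 0
    rw [h1]
    exact h s
  rw [← h1 s, h2, Polynomial.eval_zero]

/-- The version with a factor `𝔸^r`, for a generic point with `x_0 = 1`. -/
theorem stable1 {m D : ℕ} (hm : 1 ≤ m) {F : MvPolynomial (Fin (m+1+1)) ℂ} (hF : VG F)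
    (hS : S.{0, u} (m + 1 + 1) D) (hD1 : D + 1 ≤ m) (k0 : Subfield ℂ) (hk0 : Countable k0)
    (hind : AlgebraicIndependent k0 (fun j : Exp3 (m + 1 + 1) => coeff j.1 F)) {d : ℕ}
    {G : MvPolynomial (Fin (m + 1 + 1)) ℂ} (hG : G.IsHomogeneous d) (hG0 : G ≠ 0)
    (hGk : ∀ e, coeff e G ∈ k0) {L : Type u} [Field L] [Algebra ℂ L]
    (w q x : Fin (m+1+1) → L) (hx : HG F x) (hx1 : x 0 = 1)
    (hid : ∀ s : L, Fc (cL L F) (s ^ 2 • w + s • q + x) = 0)
    (hnc : ∃ s : L, ∀ c : L, s ^ 2 • w + s • q + x ≠ c • x)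
    (hw : aeval w G = 0 ∨ Algebra.trdeg ℂ (ratioF w) ≤ (D : Cardinal.{u})) {r : ℕ} (v : Fin r → L)
    (hv : AlgebraicIndependent (ratioField x) v) :
    ¬ Odd (Module.finrank (IntermediateField.adjoin (ratioField x) (Set.range v)) L) := by
  classical
  intro hodd
  obtain ⟨K0, hK0x⟩ : ∃ K0 : IntermediateField ℂ L, K0 = ratioField x := ⟨_, rfl⟩
  rw [← hK0x] at hodd hv
  have hKC : CharZero K0 := charZero_of_injective_algebraMap (algebraMap ℂ K0).injective
  have hKI : Infinite K0 := Infinite.of_injective _ (algebraMap ℂ K0).injective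
  have hmem : ∀ j, x j ∈ K0 := by
    intro j
    rw [hK0x]
    exact IntermediateField.subset_adjoin _ _ ⟨j, 0, by rw [hx1, div_one]⟩
  obtain ⟨y, hy⟩ : ∃ y : Fin (m+1+1) → K0, ∀ j, algebraMap K0 L (y j) = x j :=
    ⟨fun j => ⟨x j, hmem j⟩, fun j => rfl⟩
  have hy1 : y 0 = 1 := by
    apply (algebraMap K0 L).injective
    rw [hy, hx1, map_one]
  -- a coordinate which shows that the conic is not constant
  obtain ⟨j1, hj1⟩ : ∃ j, w j - w 0 * x j ≠ 0 ∨ q j - q 0 * x j ≠ 0 := by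
    by_contra hcon
    push Not at hcon
    obtain ⟨s, hs⟩ := hnc
    apply hs (s ^ 2 * w 0 + s * q 0 + 1)
    funext j
    obtain ⟨h1, h2⟩ := hcon j
    simp only [Pi.add_apply, Pi.smul_apply, smul_eq_mul]
    linear_combination s ^ 2 * h1 + s * h2
  obtain ⟨z, hz⟩ : ∃ z : L, z * (w j1 - w 0 * x j1) = 1 ∨ z * (q j1 - q 0 * x j1) = 1 := by
    rcases hj1 with h | h
    · exact ⟨_, Or.inl (inv_mul_cancel₀ h)⟩
    · exact ⟨_, Or.inr (inv_mul_cancel₀ h)⟩
  obtain ⟨j0, t, ht⟩ : ∃ (j0 : Fin (m+1+1)) (t : L), w = 0 ∨ t * w j0 = 1 := by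
    by_cases hw0 : w = 0
    · exact ⟨0, 0, Or.inl hw0⟩
    · obtain ⟨j0, hj0⟩ := Function.ne_iff.1 hw0
      exact ⟨j0, (w j0)⁻¹, Or.inr (inv_mul_cancel₀ hj0)⟩
  -- the specialisation
  obtain ⟨P, hP⟩ : ∃ P : Fin (m+1+1) ⊕ Fin (m+1+1) ⊕ Unit ⊕ Unit → L,
    P = Sum.elim w (Sum.elim q (Sum.elim (fun _ => z) (fun _ => t))) := ⟨_, rfl⟩
  obtain ⟨L1, fL1, aL1, p1, hp1, hodd1⟩ :=
    odd_spec (ι := Fin (m+1+1) ⊕ Fin (m+1+1) ⊕ Unit ⊕ Unit) r v hv hodd P
  let aC : Algebra ℂ L1 := ((algebraMap K0 L1).comp (algebraMap ℂ K0)).toAlgebra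
  have tw : IsScalarTower ℂ K0 L1 := IsScalarTower.of_algebraMap_eq fun _ => rfl
  obtain ⟨w1, hw1⟩ : ∃ w1 : Fin (m+1+1) → L1, ∀ j, w1 j = p1 (Sum.inl j) := ⟨_, fun _ => rfl⟩
  obtain ⟨q1, hq1⟩ : ∃ q1 : Fin (m+1+1) → L1, ∀ j, q1 j = p1 (Sum.inr (Sum.inl j)) :=
    ⟨_, fun _ => rfl⟩
  obtain ⟨z1, hz1⟩ : ∃ z1 : L1, z1 = p1 (Sum.inr (Sum.inr (Sum.inl ()))) := ⟨_, rfl⟩
  obtain ⟨t1, ht1⟩ : ∃ t1 : L1, t1 = p1 (Sum.inr (Sum.inr (Sum.inr ()))) := ⟨_, rfl⟩
  obtain ⟨x1, hxd⟩ : ∃ x1 : Fin (m+1+1) → L1, x1 = fun j => algebraMap K0 L1 (y j) := ⟨_, rfl⟩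
  have hx10 : x1 0 = 1 := by rw [hxd]; change algebraMap K0 L1 (y 0) = 1; rw [hy1, map_one]
  have hPw : ∀ j, P (Sum.inl j) = w j := fun j => by rw [hP]; rfl
  have hPq : ∀ j, P (Sum.inr (Sum.inl j)) = q j := fun j => by rw [hP]; rfl
  have hPz : P (Sum.inr (Sum.inr (Sum.inl ()))) = z := by rw [hP]; rfl
  have hPt : P (Sum.inr (Sum.inr (Sum.inr ()))) = t := by rw [hP]; rfl
  -- the equation
  have hid1 : ∀ s : L1, Fc (cL L1 F) (s ^ 2 • w1 + s • q1 + x1) = 0 := by
    intro s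
    refine (aeval_eq_Fc hF.1 _).symm.trans ?_
    refine all_s (K := K0) F w1 q1 x1 (fun s => ?_) s
    obtain ⟨g, hg⟩ : ∃ g : Fin (m+1+1) →
      MvPolynomial (Fin (m+1+1) ⊕ Fin (m+1+1) ⊕ Unit ⊕ Unit) K0,
      g = fun j => C (s ^ 2) * X (Sum.inl j) + C s * X (Sum.inr (Sum.inl j)) + C (y j) := ⟨_, rfl⟩
    have h1 := hp1 (aeval g F) (by
      have h2 := aeval_comb ((aeval P : MvPolynomial (Fin (m+1+1) ⊕ Fin (m+1+1) ⊕ Unit ⊕ Unit) K0
        →ₐ[K0] L).restrictScalars ℂ) F g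
      refine h2.trans ?_
      have h3 : (fun j => ((aeval P : MvPolynomial (Fin (m+1+1) ⊕ Fin (m+1+1) ⊕ Unit ⊕ Unit) K0
          →ₐ[K0] L).restrictScalars ℂ) (g j)) =
          (algebraMap K0 L s) ^ 2 • w + (algebraMap K0 L s) • q + x := by
        funext j
        change aeval P (g j) = _
        rw [hg]
        simp only [map_add, map_mul, map_pow, aeval_C, aeval_X, hPw, hPq, hy, Pi.add_apply,
          Pi.smul_apply, smul_eq_mul]
      rw [h3, aeval_eq_Fc hF.1]
      exact hid _)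
    have h2 := aeval_comb ((aeval p1 : MvPolynomial (Fin (m+1+1) ⊕ Fin (m+1+1) ⊕ Unit ⊕ Unit) K0
        →ₐ[K0] L1).restrictScalars ℂ) F g
    have h3 : (fun j => ((aeval p1 : MvPolynomial (Fin (m+1+1) ⊕ Fin (m+1+1) ⊕ Unit ⊕ Unit) K0
        →ₐ[K0] L1).restrictScalars ℂ) (g j)) =
        (algebraMap K0 L1 s) ^ 2 • w1 + (algebraMap K0 L1 s) • q1 + x1 := by
      funext j
      change aeval p1 (g j) = _
      rw [hg, hxd]
      simp only [map_add, map_mul, map_pow, aeval_C, aeval_X, ← hw1, ← hq1, Pi.add_apply,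
        Pi.smul_apply, smul_eq_mul]
    rw [h3] at h2
    exact h2.symm.trans h1
  -- the conic is not constant
  have hz2 : z1 * (w1 j1 - w1 0 * x1 j1) = 1 ∨ z1 * (q1 j1 - q1 0 * x1 j1) = 1 := by
    rcases hz with h | h
    · left
      have h1 := hp1 (X (Sum.inr (Sum.inr (Sum.inl ()))) * (X (Sum.inl j1) -
        X (Sum.inl 0) * C (y j1)) - C 1) (by
          simp only [map_sub, map_mul, aeval_X, aeval_C, hPz, hPw, hy, map_one]
          rw [h, sub_self])
      simp only [map_sub, map_mul, aeval_X, aeval_C, ← hz1, ← hw1, map_one] at h1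
      rw [hxd]
      exact sub_eq_zero.1 h1
    · right
      have h1 := hp1 (X (Sum.inr (Sum.inr (Sum.inl ()))) * (X (Sum.inr (Sum.inl j1)) -
        X (Sum.inr (Sum.inl 0)) * C (y j1)) - C 1) (by
          simp only [map_sub, map_mul, aeval_X, aeval_C, hPz, hPq, hy, map_one]
          rw [h, sub_self])
      simp only [map_sub, map_mul, aeval_X, aeval_C, ← hz1, ← hq1, map_one] at h1
      rw [hxd]
      exact sub_eq_zero.1 h1
  have hnc1 : ∃ s : L1, ∀ c : L1, s ^ 2 • w1 + s • q1 + x1 ≠ c • x1 := by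
    by_contra hcon
    push Not at hcon
    have hab : ∀ s : L1, s ^ 2 * (w1 j1 - w1 0 * x1 j1) + s * (q1 j1 - q1 0 * x1 j1) = 0 := by
      intro s
      obtain ⟨c, hc⟩ := hcon s
      have h0 := congrFun hc 0
      have h1 := congrFun hc j1
      simp only [Pi.add_apply, Pi.smul_apply, smul_eq_mul, hx10, mul_one] at h0 h1
      rw [← h0] at h1
      linear_combination h1
    have h2 : (2 : L1) ≠ 0 := by
      have hc : CharZero L1 := charZero_of_injective_algebraMap (algebraMap ℂ L1).injective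
      exact two_ne_zero
    have e1 := hab 1
    have e2 := hab (-1)
    have ha : w1 j1 - w1 0 * x1 j1 = 0 := by
      apply (mul_eq_zero.1 (?_ : 2 * (w1 j1 - w1 0 * x1 j1) = 0)).resolve_left h2
      linear_combination e1 + e2
    have hb : q1 j1 - q1 0 * x1 j1 = 0 := by
      apply (mul_eq_zero.1 (?_ : 2 * (q1 j1 - q1 0 * x1 j1) = 0)).resolve_left h2
      linear_combination e1 - e2
    rcases hz2 with h | h
    · rw [ha, mul_zero] at h
      exact zero_ne_one h
    · rw [hb, mul_zero] at h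
      exact zero_ne_one h
  -- the special point
  have hw2 : aeval w1 G = 0 ∨ Algebra.trdeg ℂ (ratioF w1) ≤ (D : Cardinal.{u}) := by
    rcases hw with h | h
    · left
      have h1 := hp1 (MvPolynomial.map (algebraMap ℂ K0) (rename Sum.inl G)) (by
        rw [aeval_map_algebraMap, aeval_rename]
        have h2 : P ∘ Sum.inl = w := funext hPw
        rw [h2]
        exact h)
      rw [aeval_map_algebraMap, aeval_rename] at h1
      have h2 : p1 ∘ Sum.inl = w1 := funext fun j => (hw1 j).symm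
      rw [h2] at h1
      exact h1
    · right
      rcases ht with h0 | ht
      · have h1 : w1 = 0 := by
          funext j
          have h2 := hp1 (X (Sum.inl j)) (by rw [aeval_X, hPw, h0]; rfl)
          rw [aeval_X, ← hw1] at h2
          exact h2
        rw [h1]
        exact (ratio_zero w).trans h
      · have ht2 : t1 * w1 j0 = 1 := by
          have h1 := hp1 (X (Sum.inr (Sum.inr (Sum.inr ()))) * X (Sum.inl j0) - C 1) (by
            simp only [map_sub, map_mul, aeval_X, hPt, hPw, map_one]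
            rw [ht, sub_self])
          simp only [map_sub, map_mul, aeval_X, ← ht1, ← hw1, map_one] at h1
          exact sub_eq_zero.1 h1
        refine (ratio_le w w1 j0 t t1 ht ht2 ?_).trans h
        intro H hH
        obtain ⟨g, hg⟩ : ∃ g : Fin (m+1+1) →
          MvPolynomial (Fin (m+1+1) ⊕ Fin (m+1+1) ⊕ Unit ⊕ Unit) K0,
          g = fun j => X (Sum.inr (Sum.inr (Sum.inr ()))) * X (Sum.inl j) := ⟨_, rfl⟩
        have h1 := hp1 (aeval g H) (by
          have h2 := aeval_comb ((aeval P : MvPolynomial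
            (Fin (m+1+1) ⊕ Fin (m+1+1) ⊕ Unit ⊕ Unit) K0 →ₐ[K0] L).restrictScalars ℂ) H g
          refine h2.trans ?_
          have h3 : (fun j => ((aeval P : MvPolynomial
              (Fin (m+1+1) ⊕ Fin (m+1+1) ⊕ Unit ⊕ Unit) K0 →ₐ[K0] L).restrictScalars ℂ) (g j)) =
              fun j => t * w j := by
            funext j
            change aeval P (g j) = _
            rw [hg]
            simp only [map_mul, aeval_X, hPw, hPt]
          rw [h3]
          exact hH)
        have h2 := aeval_comb ((aeval p1 : MvPolynomial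
          (Fin (m+1+1) ⊕ Fin (m+1+1) ⊕ Unit ⊕ Unit) K0 →ₐ[K0] L1).restrictScalars ℂ) H g
        have h3 : (fun j => ((aeval p1 : MvPolynomial
            (Fin (m+1+1) ⊕ Fin (m+1+1) ⊕ Unit ⊕ Unit) K0 →ₐ[K0] L1).restrictScalars ℂ) (g j)) =
            fun j => t1 * w1 j := by
          funext j
          change aeval p1 (g j) = _
          rw [hg]
          simp only [map_mul, aeval_X, ← hw1, ← ht1]
        rw [h3] at h2
        exact h2.symm.trans h1
  -- the generic point
  have hyL : HG F (fun j => algebraMap K0 L (y j)) := by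
    have h1 : (fun j => algebraMap K0 L (y j)) = x := funext hy
    rw [h1]
    exact hx
  have hyG : HG F y := HG_algebraMap.1 hyL
  have hg1 : HG F x1 := by
    rw [hxd]
    exact HG_algebraMap.2 hyG
  -- the degree
  have htop : IntermediateField.adjoin ℂ {z : K0 | ∃ i j, z = y i / y j} = ⊤ := by
    apply IntermediateField.lift_injective K0
    rw [IntermediateField.lift_adjoin, IntermediateField.lift_top]
    refine Eq.trans ?_ hK0x.symm
    unfold ratioField
    congr 1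
    ext z
    constructor
    · rintro ⟨_, ⟨i, j, rfl⟩, rfl⟩
      refine ⟨i, j, ?_⟩
      rw [← hy i, ← hy j]
      rfl
    · rintro ⟨i, j, rfl⟩
      refine ⟨y i / y j, ⟨i, j, rfl⟩, ?_⟩
      rw [← hy i, ← hy j]
      rfl
  have hrf : ratioField x1 = (IsScalarTower.toAlgHom ℂ K0 L1).fieldRange := by
    rw [hxd, AlgHom.fieldRange_eq_map, ← htop, IntermediateField.adjoin_map]
    unfold ratioField
    congr 1
    ext z
    constructor
    · rintro ⟨i, j, rfl⟩
      exact ⟨y i / y j, ⟨i, j, rfl⟩, by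
        change algebraMap K0 L1 (y i / y j) = _
        rw [map_div₀]⟩
    · rintro ⟨_, ⟨i, j, rfl⟩, rfl⟩
      refine ⟨i, j, ?_⟩
      change algebraMap K0 L1 (y i / y j) = _
      rw [map_div₀]
  have hfin : Module.finrank (ratioField x1) L1 = Module.finrank K0 L1 := by
    rw [hrf]
    symm
    exact Algebra.finrank_eq_of_equiv_equiv
      (AlgEquiv.ofInjectiveField (IsScalarTower.toAlgHom ℂ K0 L1)).toRingEquiv
      (RingEquiv.refl _) (by ext x; rfl)
  refine conic_odd hm hF hS hD1 k0 hk0 hind hG hG0 hGk w1 q1 x1 hg1 hid1 hnc1 hw2 ?_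
  rw [hfin]
  exact hodd1

/-- The version with a factor `𝔸^r`. -/
theorem stable2 {m D : ℕ} (hm : 1 ≤ m) {F : MvPolynomial (Fin (m+1+1)) ℂ} (hF : VG F)
    (hS : S.{0, u} (m + 1 + 1) D) (hD1 : D + 1 ≤ m) (k0 : Subfield ℂ) (hk0 : Countable k0)
    (hind : AlgebraicIndependent k0 (fun j : Exp3 (m + 1 + 1) => coeff j.1 F)) {d : ℕ}
    {G : MvPolynomial (Fin (m + 1 + 1)) ℂ} (hG : G.IsHomogeneous d) (hG0 : G ≠ 0)
    (hGk : ∀ e, coeff e G ∈ k0) {L : Type u} [Field L] [Algebra ℂ L]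
    (w q x : Fin (m+1+1) → L) (hx : HG F x)
    (hid : ∀ s : L, Fc (cL L F) (s ^ 2 • w + s • q + x) = 0)
    (hnc : ∃ s : L, ∀ c : L, s ^ 2 • w + s • q + x ≠ c • x)
    (hw : aeval w G = 0 ∨ Algebra.trdeg ℂ (ratioF w) ≤ (D : Cardinal.{u})) {r : ℕ} (v : Fin r → L)
    (hv : AlgebraicIndependent (ratioField x) v) :
    ¬ Odd (Module.finrank (IntermediateField.adjoin (ratioField x) (Set.range v)) L) := by
  have hx0 : x 0 ≠ 0 := HG_zero hF hx
  obtain ⟨c, hc⟩ : ∃ c : L, c = (x 0)⁻¹ := ⟨_, rfl⟩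
  have hc0 : c ≠ 0 := by rw [hc]; exact inv_ne_zero hx0
  have hrf : ratioField (c • x) = ratioField x := ratioField_smul' x hc0
  have hsum : ∀ s : L, s ^ 2 • (c • w) + s • (c • q) + c • x = c • (s ^ 2 • w + s • q + x) := by
    intro s
    rw [smul_add, smul_add, smul_comm (s ^ 2) c, smul_comm s c]
  have h1 := stable1 hm hF hS hD1 k0 hk0 hind hG hG0 hGk (c • w) (c • q) (c • x)
    (HG_smul hx c hc0) (by rw [Pi.smul_apply, smul_eq_mul, hc, inv_mul_cancel₀ hx0])
    (fun s => by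
      rw [hsum]
      refine (aeval_eq_Fc hF.1 _).symm.trans ?_
      have h2 := aeval_smul_hom hF.1 c (s ^ 2 • w + s • q + x)
      refine h2.trans ?_
      have h3 : aeval (s ^ 2 • w + s • q + x) F = 0 := (aeval_eq_Fc hF.1 _).trans (hid s)
      rw [h3, mul_zero])
    (by
      obtain ⟨s, hs⟩ := hnc
      refine ⟨s, fun c' h2 => hs c' ?_⟩
      rw [hsum, smul_comm c' c] at h2
      exact smul_right_injective _ hc0 h2)
    (by
      rcases hw with h | h
      · left
        refine (aeval_smul_hom hG c w).trans ?_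
        rw [h, mul_zero]
      · right
        rw [ratioF_smul (N := m+1) c hc0 w]
        exact h)
    v
  rw [hrf] at h1
  exact h1 hv

/-- Families of quadratically parametrised varieties: the version with a factor `𝔸^r`. -/
theorem fam_quad {m D N : ℕ} (hm : 1 ≤ m) {F : MvPolynomial (Fin (m+1+1)) ℂ} (hF : VG F)
    (hS : S.{0, u} (m + 1 + 1) D) (hD1 : D + 1 ≤ m) (k0 : Subfield ℂ) (hk0 : Countable k0)
    (hind : AlgebraicIndependent k0 (fun j : Exp3 (m + 1 + 1) => coeff j.1 F)) {d : ℕ}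
    {G : MvPolynomial (Fin (m + 1 + 1)) ℂ} (hG : G.IsHomogeneous d) (hG0 : G ≠ 0)
    (hGk : ∀ e, coeff e G ∈ k0) {E L : Type u} [Field E] [Field L] [Algebra ℂ E] [Algebra ℂ L]
    [Algebra E L] [IsScalarTower ℂ E L] (φ : Fin (m+1+1) → MvPolynomial (Fin N) E)
    (hφ : ∀ j, (φ j).IsHomogeneous 2) (h0 : aeval φ F = 0) (p : Fin N → L)
    (x : Fin (m+1+1) → L) (hxd : x = fun j => aeval p (φ j)) (hx : HG F x) (e : Fin N → E)
    (hnc : ∃ s : L, ∀ c : L,
      (fun j => aeval (fun i => s * algebraMap E L (e i) + p i) (φ j)) ≠ c • x)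
    (hw : aeval (fun j => eval e (φ j)) G = 0 ∨
      Algebra.trdeg ℂ (ratioF (fun j => eval e (φ j))) ≤ (D : Cardinal.{u})) {r : ℕ} (v : Fin r → L)
    (hv : AlgebraicIndependent (ratioField x) v) :
    ¬ Odd (Module.finrank (IntermediateField.adjoin (ratioField x) (Set.range v)) L) := by
  obtain ⟨w, hwd⟩ : ∃ w : Fin (m+1+1) → L, w = fun j => algebraMap E L (eval e (φ j)) := ⟨_, rfl⟩
  obtain ⟨q, hq⟩ : ∃ q : Fin (m+1+1) → L, q = fun j => aeval p (Bf (φ j) e) := ⟨_, rfl⟩
  have hexp : ∀ s : L, (fun j => aeval (fun i => s * algebraMap E L (e i) + p i) (φ j)) =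
      s ^ 2 • w + s • q + x := by
    intro s
    funext j
    rw [quad_expand (hφ j), hwd, hq, hxd]
    rfl
  refine stable2 hm hF hS hD1 k0 hk0 hind hG hG0 hGk w q x hx (fun s => ?_) ?_ ?_ v hv
  · rw [← hexp]
    exact fc_phi hF φ h0 _
  · obtain ⟨s, hs⟩ := hnc
    refine ⟨s, fun c => ?_⟩
    rw [← hexp]
    exact hs c
  · rcases hw with h | h
    · left
      rw [hwd]
      have h1 := MvPolynomial.aeval_algebraMap_apply (R := ℂ) (A := E) L
        (fun j => eval e (φ j)) G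
      exact h1.trans (by rw [h, map_zero])
    · right
      rw [hwd]
      exact (TQ_trdeg _).trans h

/-- A family over a small base: there is a point `e` as in `fam_quad`. -/
theorem fam_base {m D N : ℕ} (hm : 1 ≤ m) {F : MvPolynomial (Fin (m+1+1)) ℂ} (hF : VG F)
    (hS : S.{0, u} (m + 1 + 1) D) (hD1 : D + 1 ≤ m) (k0 : Subfield ℂ) (hk0 : Countable k0)
    (hind : AlgebraicIndependent k0 (fun j : Exp3 (m + 1 + 1) => coeff j.1 F)) {d : ℕ}
    {G : MvPolynomial (Fin (m + 1 + 1)) ℂ} (hG : G.IsHomogeneous d) (hG0 : G ≠ 0)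
    (hGk : ∀ e, coeff e G ∈ k0) {E L : Type u} [Field E] [Field L] [Algebra ℂ E] [Algebra ℂ L]
    [Algebra E L] [IsScalarTower ℂ E L] (φ : Fin (m+1+1) → MvPolynomial (Fin N) E)
    (hφ : ∀ j, (φ j).IsHomogeneous 2) (h0 : aeval φ F = 0) (p : Fin N → L)
    (x : Fin (m+1+1) → L) (hxd : x = fun j => aeval p (φ j)) (hx : HG F x)
    (hE : Algebra.trdeg ℂ E ≤ (D : Cardinal.{u})) {r : ℕ} (v : Fin r → L)
    (hv : AlgebraicIndependent (ratioField x) v) :
    ¬ Odd (Module.finrank (IntermediateField.adjoin (ratioField x) (Set.range v)) L) := by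
  have hinf : Infinite L := Infinite.of_injective _ (algebraMap ℂ L).injective
  have hinfE : Infinite E := Infinite.of_injective _ (algebraMap ℂ E).injective
  have hx0 : x 0 ≠ 0 := HG_zero hF hx
  obtain ⟨e, he⟩ : ∃ e : Fin N → E, eval e (φ 0) ≠ 0 := by
    by_contra hcon
    push Not at hcon
    have h1 : φ 0 = 0 := MvPolynomial.funext fun e => by rw [hcon e, map_zero]
    apply hx0
    rw [hxd]
    change aeval p (φ 0) = 0
    rw [h1, map_zero]
  refine fam_quad hm hF hS hD1 k0 hk0 hind hG hG0 hGk φ hφ h0 p x hxd hx e ?_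
    (Or.inr (le_trans (_root_.trdeg_le_of_injective (ratioF fun j => eval e (φ j)).val
      (ratioF fun j => eval e (φ j)).val.injective) hE)) v hv
  by_contra hcon
  push Not at hcon
  have hab : ∀ (s : L) (j : Fin (m+1+1)),
      s ^ 2 * (algebraMap E L (eval e (φ j)) * x 0 - algebraMap E L (eval e (φ 0)) * x j) +
      s * (aeval p (Bf (φ j) e) * x 0 - aeval p (Bf (φ 0) e) * x j) = 0 := by
    intro s j
    obtain ⟨c, hc⟩ := hcon s
    have h0 := congrFun hc 0
    have h1 := congrFun hc j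
    rw [quad_expand (hφ 0)] at h0
    rw [quad_expand (hφ j)] at h1
    have e0 : aeval p (φ 0) = x 0 := by rw [hxd]
    have e1 : aeval p (φ j) = x j := by rw [hxd]
    rw [e0, Pi.smul_apply, smul_eq_mul] at h0
    rw [e1, Pi.smul_apply, smul_eq_mul] at h1
    linear_combination x 0 * h1 - x j * h0
  have h2 : (2 : L) ≠ 0 := by
    have hc : CharZero L := charZero_of_injective_algebraMap (algebraMap ℂ L).injective
    exact two_ne_zero
  have ha : ∀ j, algebraMap E L (eval e (φ j)) * x 0 = algebraMap E L (eval e (φ 0)) * x j := by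
    intro j
    have e1 := hab 1 j
    have e2 := hab (-1) j
    apply sub_eq_zero.1
    apply (mul_eq_zero.1 (?_ : 2 * (algebraMap E L (eval e (φ j)) * x 0 -
      algebraMap E L (eval e (φ 0)) * x j) = 0)).resolve_left h2
    linear_combination e1 + e2
  have he' : algebraMap E L (eval e (φ 0)) ≠ 0 := by
    rw [Ne, map_eq_zero]
    exact he
  refine not_E_any hF x hx hE hD1 (algebraMap E L (eval e (φ 0)) / x 0)
    (fun j => eval e (φ j)) (fun j => ?_) (div_ne_zero he' hx0)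
  have h3 := ha j
  rw [div_mul_eq_mul_div, eq_div_iff hx0]
  exact h3

end MP2619.Q3
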